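import Pool.Agent.Lib.MP_464db4_gt.TH.FacB
import Pool.Agent.Lib.MP_464db4_gt.KT.Bas

/-!
# TH-Betr: the forms `∑ s_i e^(u_i) / y_i²` on the product of half planes
-/

namespace TRed

open Complex Matrix MeasureTheory YT
open scoped ContDiff ComplexConjugate ComplexOrder

variable {ι : Type} [Fintype ι] [DecidableEq ι] {G : Type} [Group G] {pr : ι → G →* Matrix.SpecialLinearGroup (Fin 2) ℝ} {b : ι → ℂ}
  {s : ι → ℝ} {u : ι → (Unit → ℂ) → ℝ}

/-- The form `∑ s_i e^(u_i) / y_i²`. -/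
noncomputable def betr (s : ι → ℝ) (u : ι → (Unit → ℂ) → ℝ) (b : ι → ℂ) : Matrix ι ι ℂ :=
  Matrix.diagonal fun i => bet (s i) (u i) (cmp i b) () ()

private theorem Betr_diff {κ : Type} [Fintype κ] {U : Set (κ → ℂ)} {f : (κ → ℂ) → ℂ} (hU : IsOpen U) (hf : ContDiffOn ℝ ∞ f U)
    {x : κ → ℂ} (hx : x ∈ U) : DifferentiableAt ℝ f x :=
  (hf.contDiffAt (hU.mem_nhds hx)).differentiableAt (by simp)

private noncomputable def Betr_L : (Unit → ℂ) →L[ℝ] ℝ :=
  Complex.imCLM.comp (ContinuousLinearMap.proj (R := ℝ) (φ := fun _ : Unit => ℂ) ())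

private theorem Betr_real {r : ℝ} {v : (Unit → ℂ) → ℝ} (hv : ContDiffOn ℝ ∞ v halfPlane) :
    ContDiffOn ℝ ∞ (fun x : Unit → ℂ => (r * Real.exp (v x) / (x ()).im ^ 2 : ℝ)) halfPlane := by
  have h2 : ContDiff ℝ ∞ (fun x : Unit → ℂ => (x ()).im) := Betr_L.contDiff
  refine (contDiffOn_const.mul (Real.contDiff_exp.comp_contDiffOn hv)).div (h2.contDiffOn.pow 2) ?_
  intro x hx
  have hx' : 0 < (x ()).im := hx
  positivity

private theorem Betr_sm {r : ℝ} {v : (Unit → ℂ) → ℝ} (hv : ContDiffOn ℝ ∞ v halfPlane) :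
    ContDiffOn ℝ ∞ (fun x : Unit → ℂ => bet r v x () ()) halfPlane :=
  Complex.ofRealCLM.contDiff.comp_contDiffOn (Betr_real hv)

private theorem Betr_ld {r : ℝ} (v : (Unit → ℂ) → ℝ) (y : Unit → ℂ) :
    logdet (bet r v) y = ((Real.log (r * Real.exp (v y) / (y ()).im ^ 2) : ℝ) : ℂ) := by
  rw [logdet, Matrix.det_unique]
  rfl

private theorem Betr_lsm {r : ℝ} (hr : 0 < r) {v : (Unit → ℂ) → ℝ} (hv : ContDiffOn ℝ ∞ v halfPlane) :
    ContDiffOn ℝ ∞ (logdet (bet r v)) halfPlane := by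
  have h3 : ContDiffOn ℝ ∞ (fun x : Unit → ℂ => Real.log (r * Real.exp (v x) / (x ()).im ^ 2)) halfPlane := by
    refine (Betr_real hv).log ?_
    intro x hx
    have hx' : 0 < (x ()).im := hx
    positivity
  exact (Complex.ofRealCLM.contDiff.comp_contDiffOn h3).congr fun y _ => Betr_ld v y

private theorem Betr_zero (i : ι) (x : ι → ℂ) : dz i (fun _ => (0 : ℂ)) x = 0 := by
  unfold dz
  simp

private theorem Betr_dz (hu : ∀ i, ContDiffOn ℝ ∞ (u i) halfPlane) {x : ι → ℂ} (hx : x ∈ Hr ι) (i j k : ι) :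
    dz k (fun y => betr s u y i j) x =
      if i = j ∧ k = i then dz () (fun y => bet (s i) (u i) y () ()) (cmp i x) else 0 := by
  by_cases h : i = j
  · subst h
    have e : (fun y => betr s u y i i) = fun y => (fun y : Unit → ℂ => bet (s i) (u i) y () ()) (cmp i y) := by
      funext y
      unfold betr
      rw [Matrix.diagonal_apply_eq]
    rw [e, dz_cmp i k (Betr_diff isOpen_halfPlane (Betr_sm (hu i)) (cmp_mem hx i))]
    simp
  · have e : (fun y => betr s u y i j) = fun _ => (0 : ℂ) := by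
      funext y
      unfold betr
      rw [Matrix.diagonal_apply_ne _ h]
    rw [e, Betr_zero, if_neg (fun h' => h h'.1)]

private theorem Betr_one {r : ℝ} {v : (Unit → ℂ) → ℝ} (γ : Matrix.SpecialLinearGroup (Fin 2) ℝ) {x : Unit → ℂ}
    (hx : x ∈ halfPlane) (hi : v (mob γ x) = v x) :
    mj γ x * bet r v (mob γ x) () () * conj (mj γ x) = bet r v x () () := by
  have hx' : 0 < (x ()).im := hx
  have hm := mj_ne γ hx
  have hn : 0 < ‖mj γ x‖ := norm_pos_iff.2 hm
  have e : mj γ x * bet r v (mob γ x) () () * conj (mj γ x) =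
      mj γ x * ((r * Real.exp (v (mob γ x)) / (mob γ x ()).im ^ 2 : ℝ) : ℂ) * conj (mj γ x) := rfl
  rw [e, im_mob γ hx, hi]
  have e2 : mj γ x * ((r * Real.exp (v x) / ((x ()).im * ‖mj γ x‖) ^ 2 : ℝ) : ℂ) * conj (mj γ x) =
      ((r * Real.exp (v x) / ((x ()).im * ‖mj γ x‖) ^ 2 : ℝ) : ℂ) * (mj γ x * conj (mj γ x)) := by ring
  rw [e2, Complex.mul_conj, Complex.normSq_eq_norm_sq]
  have e3 : (r * Real.exp (v x) / ((x ()).im * ‖mj γ x‖) ^ 2) * ‖mj γ x‖ ^ 2 = r * Real.exp (v x) / (x ()).im ^ 2 := by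
    field_simp
  rw [← Complex.ofReal_mul, e3]
  rfl

theorem betr_isKahler (hs : ∀ i, 0 < s i) (hu : ∀ i, ContDiffOn ℝ ∞ (u i) halfPlane)
    (hi : ∀ i, ∀ γ : G, ∀ x ∈ halfPlane, u i (mob (pr i γ) x) = u i x) : IsKahler (Hr ι) (Set.range (mobr pr)) (betr s u) := by
  refine ⟨?_, ?_, ?_, ?_⟩
  · intro i j
    by_cases h : i = j
    · subst h
      refine (cmp_smooth (Betr_sm (r := s i) (hu i)) i).congr ?_
      intro y _
      show betr s u y i i = _
      unfold betr
      rw [Matrix.diagonal_apply_eq]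
    · refine (contDiffOn_const (c := (0 : ℂ))).congr ?_
      intro y _
      show betr s u y i j = _
      unfold betr
      rw [Matrix.diagonal_apply_ne _ h]
  · intro x hx
    unfold betr
    refine Matrix.PosDef.diagonal ?_
    intro i
    have hx' : 0 < (x i).im := hx i
    have h1 : (0 : ℝ) < s i * Real.exp (u i (cmp i x)) / (x i).im ^ 2 := by
      have := hs i
      positivity
    have h2 : (0 : ℂ) < ((s i * Real.exp (u i (cmp i x)) / (x i).im ^ 2 : ℝ) : ℂ) := by exact_mod_cast h1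
    exact h2
  · intro x hx i j k
    rw [Betr_dz hu hx, Betr_dz hu hx]
    by_cases h1 : i = j
    · by_cases h2 : k = i
      · subst h2
        rfl
      · rw [if_neg (fun h => h2 h.2), if_neg (fun h => h2 (h.1.trans h1.symm))]
    · rw [if_neg (fun h => h1 h.1), if_neg (fun h => h1 (h.2.trans h.1))]
  · rintro F ⟨γ, rfl⟩ x hx
    have hJ : jac (mobr pr γ) x = Matrix.diagonal fun i => mj (pr i γ) (cmp i x) := by
      ext i j
      rw [jac_mobr γ hx, Matrix.diagonal_apply]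
    have hC : mconj (Matrix.diagonal fun i => mj (pr i γ) (cmp i x)) =
        Matrix.diagonal fun i => conj (mj (pr i γ) (cmp i x)) := by
      unfold mconj
      rw [Matrix.diagonal_map (map_zero _)]
    rw [hJ, hC, Matrix.diagonal_transpose]
    unfold betr
    rw [Matrix.diagonal_mul_diagonal, Matrix.diagonal_mul_diagonal]
    congr 1
    funext i
    rw [cmp_mobr]
    exact Betr_one (pr i γ) (cmp_mem hx i) (hi i γ _ (cmp_mem hx i))

theorem betr_inv (hs : ∀ i, 0 < s i) (hb : b ∈ Hr ι) (i j : ι) :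
    (betr s u b)⁻¹ i j = if i = j then (((b i).im ^ 2 / (s i * Real.exp (u i (cmp i b))) : ℝ) : ℂ) else 0 := by
  have h1 : (betr s u b)⁻¹ = Matrix.diagonal fun i => (((b i).im ^ 2 / (s i * Real.exp (u i (cmp i b))) : ℝ) : ℂ) := by
    refine Matrix.inv_eq_right_inv ?_
    unfold betr
    rw [Matrix.diagonal_mul_diagonal, ← Matrix.diagonal_one]
    congr 1
    funext k
    have hk : 0 < (b k).im := hb k
    have hk' := hs k
    have e : bet (s k) (u k) (cmp k b) () () = ((s k * Real.exp (u k (cmp k b)) / (b k).im ^ 2 : ℝ) : ℂ) := rfl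
    rw [e, ← Complex.ofReal_mul]
    have h2 : s k * Real.exp (u k (cmp k b)) / (b k).im ^ 2 * ((b k).im ^ 2 / (s k * Real.exp (u k (cmp k b)))) = 1 := by
      have := Real.exp_pos (u k (cmp k b))
      field_simp
    rw [h2, Complex.ofReal_one]
  rw [h1, Matrix.diagonal_apply]

theorem betr_dd (hs : ∀ i, 0 < s i) (hu : ∀ i, ContDiffOn ℝ ∞ (u i) halfPlane) (hb : b ∈ Hr ι) (i : ι) :
    dz i (fun y => dzbar i (logdet (betr s u)) y) b =
      dz () (fun y => dzbar () (fun y => ((u i y : ℝ) : ℂ)) y) (cmp i b) + ((1 / (2 * (b i).im ^ 2) : ℝ) : ℂ) := by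
  have hL : ∀ y ∈ Hr ι, logdet (betr s u) y = ∑ k, logdet (bet (s k) (u k)) (cmp k y) := by
    intro y hy
    have h1 : (betr s u y).det = ((∏ k, s k * Real.exp (u k (cmp k y)) / (y k).im ^ 2 : ℝ) : ℂ) := by
      unfold betr
      rw [Matrix.det_diagonal, Complex.ofReal_prod]
      rfl
    rw [logdet, h1, Complex.ofReal_re, Real.log_prod, Complex.ofReal_sum]
    · refine Finset.sum_congr rfl fun k _ => ?_
      rw [Betr_ld]
      rfl
    · intro k _
      have hk : 0 < (y k).im := hy k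
      have hk' := hs k
      positivity
  have hsm : ∀ k, ContDiffOn ℝ ∞ (fun y => logdet (bet (s k) (u k)) (cmp k y)) (Hr ι) := fun k =>
    cmp_smooth (Betr_lsm (hs k) (hu k)) k
  have hbar : ∀ y ∈ Hr ι, dzbar i (logdet (betr s u)) y =
      ∑ k, dzbar i (fun y => logdet (bet (s k) (u k)) (cmp k y)) y := by
    intro y hy
    rw [dzbar_congr_on isOpen_Hr hL hy i]
    exact dzbar_sum Finset.univ (fun k y => logdet (bet (s k) (u k)) (cmp k y)) i
      fun k _ => Betr_diff isOpen_Hr (hsm k) hy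
  rw [dz_congr_on isOpen_Hr hbar hb i]
  rw [dz_sum Finset.univ (fun k y => dzbar i (fun y => logdet (bet (s k) (u k)) (cmp k y)) y) i
      fun k _ => Betr_diff isOpen_Hr (dzbar_contDiffOn isOpen_Hr (hsm k) i) hb]
  rw [Finset.sum_eq_single i]
  · rw [dd_cmp (Betr_lsm (hs i) (hu i)) hb i i i, if_pos ⟨rfl, rfl⟩, bet_dd (hs i) (hu i) (cmp_mem hb i)]
    rfl
  · intro k _ hk
    rw [dd_cmp (Betr_lsm (hs k) (hu k)) hb k i i, if_neg (fun h => hk h.1.symm)]
  · intro h
    exact absurd (Finset.mem_univ i) h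

/-- The twisted scalar curvature of the solution. -/
theorem betr_tw (hs : ∀ i, 0 < s i) (hu : ∀ i, ContDiffOn ℝ ∞ (u i) halfPlane) (hb : b ∈ Hr ι) {w : ι → ι → ℂ} {N : ι → ℝ}
    (hw : ∀ i, w i i = ((N i : ℝ) : ℂ))
    (heq : ∀ i, dz () (fun y => dzbar () (fun y => ((u i y : ℝ) : ℂ)) y) (cmp i b) =
      (((Real.exp (u i (cmp i b)) - (2 + 4 * (b i).im ^ 2 * N i)) / (4 * (b i).im ^ 2) : ℝ) : ℂ)) :
    scal (betr s u) b - ∑ i, ∑ j, (betr s u b)⁻¹ j i * w i j = ((-∑ i, 1 / (4 * s i) : ℝ) : ℂ) := by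
  have hd : ∀ f : ι → ι → ℂ, ∑ i, ∑ j, (betr s u b)⁻¹ j i * f i j =
      ∑ i, (((b i).im ^ 2 / (s i * Real.exp (u i (cmp i b))) : ℝ) : ℂ) * f i i := by
    intro f
    refine Finset.sum_congr rfl fun i _ => ?_
    rw [Finset.sum_eq_single i]
    · rw [betr_inv hs hb, if_pos rfl]
    · intro j _ hj
      rw [betr_inv hs hb, if_neg hj, zero_mul]
    · intro h
      exact absurd (Finset.mem_univ i) h
  rw [scal, hd (fun i j => dz i (fun y => dzbar j (logdet (betr s u)) y) b), hd w, ← neg_add', ← Finset.sum_add_distrib,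
    Complex.ofReal_neg, Complex.ofReal_sum]
  congr 1
  refine Finset.sum_congr rfl fun i _ => ?_
  show (((b i).im ^ 2 / (s i * Real.exp (u i (cmp i b))) : ℝ) : ℂ) * dz i (fun y => dzbar i (logdet (betr s u)) y) b + _ = _
  rw [betr_dd hs hu hb i, heq i, hw i, ← Complex.ofReal_add, ← Complex.ofReal_mul, ← Complex.ofReal_mul,
    ← Complex.ofReal_add]
  congr 1
  have hk : 0 < (b i).im := hb i
  have hk' := hs i
  have := Real.exp_pos (u i (cmp i b))
  field_simp
  ring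

end TRed
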