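import Pool.Agent.Lib.MP_464db4_gt.TH.FacB
import Pool.Agent.Lib.MP_464db4_gt.KT.Bas

/-!
# TH-CohR: cohomologous forms on the factors give cohomologous forms on the product

If `e i` is a primitive of `α' i - α i` on the half plane, invariant under `pr_i(G)`, then `fun b i => e i (cmp i b) ()` is a primitive on `Hr ι`.
* smooth: `cmp_smooth`.  inv: `∑ k, e k (mob (pr k γ) (cmp k b)) () * jac (mobr pr γ) b k i`, `jac_mobr` is diagonal, and `(h i).inv (mob (pr i γ))`, `jac_mob`.
* sym: `dz i (fun y => e j (cmp j y) ()) b` is `0` for `i ≠ j` (`dz_cmp`).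
* eq: off the diagonal both sides are `0` (`dz_cmp`, `dzbar_cmp`, `Matrix.diagonal_apply`; `dz i (conj (e_j)) = 0` for `i ≠ j`), on the diagonal it is `(h i).eq`.
-/

namespace TRed

open Complex Matrix MeasureTheory YT
open scoped ContDiff ComplexConjugate ComplexOrder

variable {ι : Type} [Fintype ι] [DecidableEq ι] {G : Type} [Group G] {pr : ι → G →* Matrix.SpecialLinearGroup (Fin 2) ℝ}

theorem coh_fac {α α' : ι → (Unit → ℂ) → Matrix Unit Unit ℂ} (h : ∀ i, Cohomologous halfPlane (mobs (pr i).range) (α i) (α' i)) :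
    Cohomologous (Hr ι) (Set.range (mobr pr)) (fun b => Matrix.diagonal fun i => α i (cmp i b) () ()) (fun b => Matrix.diagonal fun i => α' i (cmp i b) () ()) := by
  choose e he using h
  have hd : ∀ i (b : ι → ℂ), b ∈ Hr ι → DifferentiableAt ℝ (fun x => e i x ()) (cmp i b) := fun i b hb =>
    (((he i).smooth ()).contDiffAt (isOpen_halfPlane.mem_nhds (cmp_mem hb i))).differentiableAt (by simp)
  have hdc : ∀ i (b : ι → ℂ), b ∈ Hr ι → DifferentiableAt ℝ (fun x => conj (e i x ())) (cmp i b) := fun i b hb =>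
    ((conj_contDiffOn ((he i).smooth ())).contDiffAt (isOpen_halfPlane.mem_nhds (cmp_mem hb i))).differentiableAt (by simp)
  refine ⟨fun b i => e i (cmp i b) (), fun i => cmp_smooth (ψ := fun x => e i x ()) ((he i).smooth ()) i, ?_, ?_, ?_⟩
  · rintro F ⟨γ, rfl⟩ x hx i
    have h1 : ∀ k, e k (cmp k (mobr pr γ x)) () * jac (mobr pr γ) x k i =
        if k = i then e k (mob (pr k γ) (cmp k x)) () * mj (pr k γ) (cmp k x) else 0 := by
      intro k
      rw [jac_mobr γ hx, cmp_mobr]
      split_ifs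
      · rfl
      · rw [mul_zero]
    rw [Finset.sum_congr rfl fun k _ => h1 k, Finset.sum_ite_eq' Finset.univ i, if_pos (Finset.mem_univ i)]
    have h2 := (he i).inv (mob (pr i γ)) ⟨pr i γ, ⟨γ, rfl⟩, rfl⟩ (cmp i x) (cmp_mem hx i) ()
    rw [Fintype.sum_unique, jac_mob _ (cmp_mem hx i)] at h2
    exact h2
  · intro x hx i j
    rw [dz_cmp (ψ := fun x => e j x ()) j i (hd j x hx), dz_cmp (ψ := fun x => e i x ()) i j (hd i x hx)]
    by_cases hij : i = j
    · subst hij
      rfl
    · rw [if_neg hij, if_neg (Ne.symm hij)]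
  · intro x hx i j
    rw [dz_cmp (ψ := fun x => conj (e j x ())) j i (hdc j x hx), dzbar_cmp (ψ := fun x => e i x ()) i j (hd i x hx)]
    by_cases hij : i = j
    · subst hij
      rw [if_pos rfl, if_pos rfl, Matrix.diagonal_apply_eq, Matrix.diagonal_apply_eq]
      exact (he i).eq (cmp i x) (cmp_mem hx i) () ()
    · rw [if_neg hij, if_neg (Ne.symm hij), Matrix.diagonal_apply_ne _ hij, Matrix.diagonal_apply_ne _ hij]
      ring

end TRed
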