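import Pool.Agent.Lib.MP_464db4_gt.KW.KWT

/-!
# TH-KWS: the Kazdan-Warner equation for functions invariant under a subgroup of `SL(2,ℝ)`, not necessarily discrete

The proof of `KW.kazdan_warner` (KW/KWT.lean) word by word: there `YT.cocompact_set hΓ` is only used to get the compact set `K`, which is now a hypothesis.
-/

namespace KW

open Complex MeasureTheory Set Filter Topology
open scoped ContDiff

theorem kw_set {Γ : Subgroup (Matrix.SpecialLinearGroup (Fin 2) ℝ)} {K : Set (Unit → ℂ)} (hK : IsCompact K) (hKh : K ⊆ YT.halfPlane)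
    (hcov : ∀ x ∈ YT.halfPlane, ∃ γ ∈ Γ, YT.mob γ x ∈ K) {f : (Unit → ℂ) → ℝ}
    (hf : ContDiffOn ℝ ∞ f YT.halfPlane) (hpos : ∀ x ∈ YT.halfPlane, 0 < f x) (hinv : ∀ γ ∈ Γ, ∀ x ∈ YT.halfPlane, f (YT.mob γ x) = f x) :
    ∃ u : (Unit → ℂ) → ℝ, ContDiffOn ℝ ∞ u YT.halfPlane ∧ (∀ γ ∈ Γ, ∀ x ∈ YT.halfPlane, u (YT.mob γ x) = u x) ∧
      ∀ x ∈ YT.halfPlane, YT.dz () (fun y => YT.dzbar () (fun y => ((u y : ℝ) : ℂ)) y) x =
        (((Real.exp (u x) - f x) / (4 * (x ()).im ^ 2) : ℝ) : ℂ) := by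
  have heta : ∀ x : Unit → ℂ, (fun _ : Unit => x ()) = x := fun x => rfl
  have hKne : K.Nonempty := by
    have hI : (fun _ : Unit => I) ∈ YT.halfPlane := by
      show 0 < (I : ℂ).im
      simp
    obtain ⟨γ, -, hγ⟩ := hcov _ hI
    exact ⟨_, hγ⟩
  have hfK : ContinuousOn f K := hf.continuousOn.mono hKh
  obtain ⟨a, haK, ha⟩ := hK.exists_isMinOn hKne hfK
  obtain ⟨b, hbK, hb⟩ := hK.exists_isMaxOn hKne hfK
  have hm : 0 < f a := hpos a (hKh haK)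
  have hmL : f a ≤ f b := ha hbK
  have hbd : ∀ x ∈ YT.halfPlane, f a ≤ f x ∧ f x ≤ f b := by
    intro x hx
    obtain ⟨γ, hγ, hγK⟩ := hcov x hx
    rw [← hinv γ hγ x hx]
    exact ⟨ha hγK, hb hγK⟩
  have hf' : ContDiffOn ℝ ∞ (fun w : ℂ => f (fun _ => w)) hp :=
    hf.comp (contDiff_pi.2 fun _ => contDiff_id).contDiffOn (fun w hw => hw)
  have hbd' : ∀ w ∈ hp, f a ≤ f (fun _ => w) ∧ f (fun _ => w) ≤ f b := fun w hw => hbd _ hw
  have hinv' : ∀ γ ∈ (Γ : Set (Matrix.SpecialLinearGroup (Fin 2) ℝ)), ∀ w ∈ hp,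
      (fun w : ℂ => f (fun _ => w)) (mo γ w) = (fun w : ℂ => f (fun _ => w)) w := by
    intro γ hγ w hw
    exact hinv γ hγ (fun _ => w) hw
  have hK' : IsCompact ((fun x : Unit → ℂ => x ()) '' K) := hK.image (continuous_apply ())
  have hK'h : (fun x : Unit → ℂ => x ()) '' K ⊆ hp := by
    rintro _ ⟨x, hx, rfl⟩
    exact hKh hx
  have hcov' : ∀ z ∈ hp, ∃ γ ∈ (Γ : Set (Matrix.SpecialLinearGroup (Fin 2) ℝ)), mo γ z ∈ (fun x : Unit → ℂ => x ()) '' K := by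
    intro z hz
    obtain ⟨γ, hγ, hγK⟩ := hcov (fun _ => z) hz
    exact ⟨γ, hγ, _, hγK, rfl⟩
  obtain ⟨ν, κ, R, C, h⟩ := exists_kpair (f b)
  obtain ⟨u, huc, -, hui, hfix⟩ := exists_fixed h hm hmL hf'.continuousOn hbd' (Γ : Set (Matrix.SpecialLinearGroup (Fin 2) ℝ)) hinv'
  have hus : ContDiffOn ℝ ∞ u hp := fixed_smooth h hf' huc hfix
  have heq := fixed_eq h hm hmL hf' (Γ : Set (Matrix.SpecialLinearGroup (Fin 2) ℝ)) hK' hK'h hcov' hinv' huc hui hfix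
  refine ⟨fun x => u (x ()), ?_, ?_, ?_⟩
  · exact hus.comp (contDiff_apply ℝ ℂ ()).contDiffOn (fun x hx => hx)
  · intro γ hγ x hx
    exact hui γ hγ (x ()) hx
  · intro x hx
    have h1 := lapE_eq hus hx
    refine h1.trans ?_
    have h2 : lapH u (x ()) = Real.exp (u (x ())) - f x := heq (x ()) hx
    have hx' : 0 < (x ()).im := hx
    unfold lapH at h2
    congr 1
    rw [← h2]
    field_simp

end KW
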