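import Pool.Agent.Lib.MP_464db4_gt.TH.PoD
import Pool.Agent.Lib.MP_464db4_gt.TH.Smp
import Pool.Agent.Lib.MP_464db4_gt.KT.Bas

/-!
# TH-PoE: the class of `c/y²` on a factor, for a subgroup of `SL(2,ℝ)` with a compact set of representatives

* `KW.poisson` for `φ w = exp (u (fun _ => w))` gives `ψ`, `m` (the compact set: the image of `K` under `x ↦ x ()`; see the proof of `KW.kw_set`/`KW.kazdan_warner` for the passage from `Unit → ℂ` to `ℂ`).
* `m > 0`: `ψ` has a maximum at a point of the compact set (which is not empty, as `halfPlane` is not), hence on `hp` by invariance.  If `m ≤ 0` then `lapH ψ = exp u - m > 0`, so `lapE ψ ≥ 0` on `hp` and `ψ` is constant by `KW.smp`, so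
  `lapH ψ = 0` (`lapH_congr_hp` with a constant function), a contradiction.
* `s = c / m`: `s e^u / y² - c / y² = (c/m) (e^u - m)/y² = (c/m) lapE ψ`.
* the primitive is `e x () = -2 (c/m) I * dz () (lift ψ) x` (`KW.lift`, `lift_contDiffOn`, real valued): smooth (`dz_contDiffOn`); invariant: `lift ψ (mob γ y) = lift ψ y` on the half plane, `dz_comp`, `jac_mob`; `sym` is trivial;
  `eq`: `conj (dz () (lift ψ) y) = dzbar () (lift ψ) y` (`dz_conj`, `lift ψ` is real), so `-I (dz (conj e) - dzbar e) = -I (2 (c/m) I + 2 (c/m) I) ∂∂̄ψ = 4 (c/m) ∂∂̄ψ` (`dz_dzbar_comm`), and `4 ∂∂̄ψ = lapE ψ` (`KW.lapE_eq`).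
-/

namespace YT

open Complex Matrix MeasureTheory
open scoped ContDiff ComplexConjugate ComplexOrder

theorem scale_gen {S : Subgroup (Matrix.SpecialLinearGroup (Fin 2) ℝ)} {K : Set (Unit → ℂ)} (hK : IsCompact K) (hKh : K ⊆ halfPlane)
    (hcov : ∀ x ∈ halfPlane, ∃ γ ∈ S, mob γ x ∈ K) {c : ℝ} (hc : 0 < c) {u : (Unit → ℂ) → ℝ} (hu : ContDiffOn ℝ ∞ u halfPlane)
    (hi : ∀ γ ∈ S, ∀ x ∈ halfPlane, u (mob γ x) = u x) :
    ∃ s : ℝ, 0 < s ∧ Cohomologous halfPlane (mobs S) (hyp c) (bet s u) := by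
  have hKne : K.Nonempty := by
    have hI : (fun _ : Unit => I) ∈ halfPlane := by
      show 0 < (I : ℂ).im
      simp
    obtain ⟨γ, -, hγ⟩ := hcov _ hI
    exact ⟨_, hγ⟩
  have hu' : ContDiffOn ℝ ∞ (fun w : ℂ => u (fun _ => w)) KW.hp :=
    hu.comp (contDiff_pi.2 fun _ => contDiff_id).contDiffOn (fun w hw => hw)
  have hK' : IsCompact ((fun x : Unit → ℂ => x ()) '' K) := hK.image (continuous_apply ())
  have hK'h : (fun x : Unit → ℂ => x ()) '' K ⊆ KW.hp := by
    rintro _ ⟨x, hx, rfl⟩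
    exact hKh hx
  have hcov' : ∀ z ∈ KW.hp, ∃ γ ∈ S, KW.mo γ z ∈ (fun x : Unit → ℂ => x ()) '' K := by
    intro z hz
    obtain ⟨γ, hγ, hγK⟩ := hcov (fun _ => z) hz
    exact ⟨γ, hγ, _, hγK, rfl⟩
  have hinv' : ∀ γ ∈ S, ∀ w ∈ KW.hp, Real.exp (u (fun _ => KW.mo γ w)) = Real.exp (u (fun _ => w)) := by
    intro γ hγ w hw
    have h1 : u (fun _ => KW.mo γ w) = u (fun _ => w) := hi γ hγ (fun _ => w) hw
    rw [h1]
  obtain ⟨ψ, m, hψ, hψi, heq⟩ := KW.poisson hK' hK'h hcov' (φ := fun w => Real.exp (u (fun _ => w)))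
    (Real.contDiff_exp.comp_contDiffOn hu') hinv'
  -- the constant is positive
  have hm : 0 < m := by
    by_contra hm
    rw [not_lt] at hm
    obtain ⟨a, haK, ha⟩ := hK'.exists_isMaxOn (hKne.image _) (hψ.continuousOn.mono hK'h)
    have hM : ∀ z ∈ KW.hp, ψ z ≤ ψ a := by
      intro z hz
      obtain ⟨γ, hγ, hγK⟩ := hcov' z hz
      rw [← hψi γ hγ z hz]
      exact ha hγK
    have hpos : ∀ z ∈ KW.hp, 0 < KW.lapH ψ z := by
      intro z hz
      rw [heq z hz]
      have := Real.exp_pos (u (fun _ => z))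
      linarith
    have hsub : ∀ z ∈ KW.hp, 0 ≤ KW.lapE ψ z := by
      intro z hz
      have h1 := hpos z hz
      unfold KW.lapH at h1
      have h2 : 0 < z.im ^ 2 := by
        have : 0 < z.im := hz
        positivity
      exact (pos_of_mul_pos_right h1 h2.le).le
    have hcst := KW.smp hψ hsub hM (hK'h haK) rfl
    have h1 := hpos a (hK'h haK)
    rw [KW.lapH_congr_hp (ψ := fun _ => ψ a) hcst (hK'h haK)] at h1
    have h2 : KW.lapH (fun _ => ψ a) a = 0 := by
      have e1 : KW.dx (fun _ : ℂ => ψ a) = fun _ => 0 := by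
        funext w
        simp [KW.dx]
      have e2 : KW.dy (fun _ : ℂ => ψ a) = fun _ => 0 := by
        funext w
        simp [KW.dy]
      unfold KW.lapH KW.lapE
      rw [e1, e2]
      simp [KW.dx, KW.dy]
    rw [h2] at h1
    exact lt_irrefl _ h1
  have hL := KW.lift_contDiffOn hψ
  have hLi : ∀ γ ∈ S, ∀ x ∈ halfPlane, KW.lift ψ (mob γ x) = KW.lift ψ x := by
    intro γ hγ x hx
    have h1 : ψ (KW.mo γ (x ())) = ψ (x ()) := hψi γ hγ (x ()) hx
    show ((ψ (KW.mo γ (x ())) : ℝ) : ℂ) = ((ψ (x ()) : ℝ) : ℂ)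
    rw [h1]
  have hdz : ContDiffOn ℝ ∞ (fun y => dz () (KW.lift ψ) y) halfPlane := dz_contDiffOn isOpen_halfPlane hL ()
  have hdzb : ContDiffOn ℝ ∞ (fun y => dzbar () (KW.lift ψ) y) halfPlane := dzbar_contDiffOn isOpen_halfPlane hL ()
  have hcj : ∀ y, conj (dz () (KW.lift ψ) y) = dzbar () (KW.lift ψ) y := by
    intro y
    rw [← dzbar_conj]
    have h1 : (fun y => conj (KW.lift ψ y)) = KW.lift ψ := by
      funext y
      exact Complex.conj_ofReal _
    rw [h1]
  obtain ⟨r, hr⟩ : ∃ r : ℂ, r = -2 * ((c / m : ℝ) : ℂ) * I := ⟨_, rfl⟩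
  have hrc : conj r = 2 * ((c / m : ℝ) : ℂ) * I := by
    rw [hr, map_mul, map_mul, Complex.conj_I, Complex.conj_ofReal, map_neg, map_ofNat]
    ring
  refine ⟨c / m, div_pos hc hm, fun x _ => r * dz () (KW.lift ψ) x, fun i => contDiffOn_const.mul hdz, ?_, ?_, ?_⟩
  · rintro F ⟨γ, hγ, rfl⟩ x hx i
    have hF : DifferentiableAt ℂ (mob γ) x := (mob_hol γ).differentiableAt (isOpen_halfPlane.mem_nhds hx)
    have hfd : DifferentiableAt ℝ (KW.lift ψ) (mob γ x) :=
      (hL.contDiffAt (isOpen_halfPlane.mem_nhds (mob_mem γ hx))).differentiableAt (by simp)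
    have h1 := dz_comp hF hfd ()
    rw [dz_congr_on isOpen_halfPlane (fun y hy => hLi γ hγ y hy) hx ()] at h1
    cases i
    rw [h1, Finset.mul_sum]
    refine Finset.sum_congr rfl fun k _ => ?_
    cases k
    ring
  · intro x hx i j
    rfl
  · intro x hx i j
    cases i
    cases j
    have hd1 : DifferentiableAt ℝ (fun y => dz () (KW.lift ψ) y) x :=
      (hdz.contDiffAt (isOpen_halfPlane.mem_nhds hx)).differentiableAt (by simp)
    have hd2 : DifferentiableAt ℝ (fun y => dzbar () (KW.lift ψ) y) x :=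
      (hdzb.contDiffAt (isOpen_halfPlane.mem_nhds hx)).differentiableAt (by simp)
    have e1 : (fun y : Unit → ℂ => conj (r * dz () (KW.lift ψ) y)) = fun y => conj r * dzbar () (KW.lift ψ) y := by
      funext y
      rw [map_mul, hcj]
    have e2 : dz () (fun y => conj (r * dz () (KW.lift ψ) y)) x = conj r * dz () (fun y => dzbar () (KW.lift ψ) y) x := by
      rw [e1, dz_const_mul () _ hd2]
    have e3 : dzbar () (fun y => r * dz () (KW.lift ψ) y) x = r * dz () (fun y => dzbar () (KW.lift ψ) y) x := by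
      rw [dzbar_const_mul () _ hd1, dz_dzbar_comm isOpen_halfPlane hL hx () ()]
    have e4 := KW.lapE_eq hψ hx
    have hx' : 0 < (x ()).im := hx
    have e5 : KW.lapE ψ (x ()) = (Real.exp (u x) - m) / (x ()).im ^ 2 := by
      have h1 : KW.lapH ψ (x ()) = Real.exp (u x) - m := heq (x ()) hx
      unfold KW.lapH at h1
      rw [← h1]
      field_simp
    show (bet (c / m) u x) () () - (hyp c x) () () = -I * (dz () (fun y => conj (r * dz () (KW.lift ψ) y)) x -
      dzbar () (fun y => r * dz () (KW.lift ψ) y) x)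
    rw [e2, e3, e4, hrc, hr, e5]
    have e6 : (bet (c / m) u x) () () = ((c / m * Real.exp (u x) / (x ()).im ^ 2 : ℝ) : ℂ) := rfl
    have e7 : (hyp c x) () () = ((c / (x ()).im ^ 2 : ℝ) : ℂ) := rfl
    rw [e6, e7]
    have e8 : c / m * Real.exp (u x) / (x ()).im ^ 2 - c / (x ()).im ^ 2 =
        4 * (c / m) * ((Real.exp (u x) - m) / (x ()).im ^ 2 / 4) := by
      field_simp
    have e9 : ((c / m * Real.exp (u x) / (x ()).im ^ 2 : ℝ) : ℂ) - ((c / (x ()).im ^ 2 : ℝ) : ℂ) =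
        4 * ((c / m : ℝ) : ℂ) * (((Real.exp (u x) - m) / (x ()).im ^ 2 / 4 : ℝ) : ℂ) := by
      rw [← Complex.ofReal_sub, e8]
      push_cast
      ring
    rw [e9]
    linear_combination (4 * ((c / m : ℝ) : ℂ) * (((Real.exp (u x) - m) / (x ()).im ^ 2 / 4 : ℝ) : ℂ)) * I_mul_I

end YT
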