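import Pool.Agent.Lib.MP_464db4_gt.TH.Rig
import Pool.Agent.Lib.MP_464db4_gt.TH.Betr
import Pool.Agent.Lib.MP_464db4_gt.TH.CohR
import Pool.Agent.Lib.MP_464db4_gt.TH.PoE
import Pool.Agent.Lib.MP_464db4_gt.TH.KWS
import Pool.Agent.Lib.MP_464db4_gt.TR.Iff

/-!
# TH-Asm: the assembly

For each `i`: `f_i x = 2 + 4 FF gm i (b₀ with b_i = x ())`, `b₀` any point (if `ι` is empty everything is trivial): smooth, `≥ 2`, invariant under `pr_i(G)`: `(mobr pr γ b) i = mob (pr i γ) (cmp i b)`, `FF_inv`, `rig_FF`.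
The compact set: the image of that of `hB.cocompact` under `cmp i`.  `KW.kw_set` gives `u_i`, `scale_gen` gives `s_i`; `coh_fac` and `poin c = diagonal (hyp (c i))`; `betr_tw` with `w = w_ij`, `N i = re w_ii`; `flat_iff`.
-/

namespace TRed

open Complex Matrix MeasureTheory YT
open scoped ContDiff ComplexConjugate ComplexOrder

variable {ι κ : Type} [Fintype ι] [DecidableEq ι] [Fintype κ] [DecidableEq κ] {G : Type} [Group G] {pr : ι → G →* Matrix.SpecialLinearGroup (Fin 2) ℝ}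
  {T : TorusFamily κ (Hr ι) (mobr pr)} {g gm : (ι ⊕ κ → ℂ) → Matrix (ι ⊕ κ) (ι ⊕ κ) ℂ} {c : ι → ℝ}

theorem asm_twscal (hB : CompactBase (Hr ι) (mobr pr))
    (hg : IsKahler (tot κ (Hr ι)) T.total gm) (hf : FibreFlat T gm) (hc : ∀ i, 0 < c i) :
    ∃ β', IsKahler (Hr ι) (Set.range (mobr pr)) β' ∧ Cohomologous (Hr ι) (Set.range (mobr pr)) (poin c) β' ∧
      ∃ r : ℝ, (Nonempty ι → 0 < r) ∧ ∀ b ∈ Hr ι, twscal gm β' b = ((-r : ℝ) : ℂ) := by
  have h0 : (fun _ : ι => I) ∈ Hr ι := by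
    intro i
    show 0 < (I : ℂ).im
    simp
  have hup : ∀ i : ι, ∀ x ∈ halfPlane, Function.update (fun _ : ι => I) i (x ()) ∈ Hr ι := fun i x hx => update_mem h0 i hx
  have hcmp : ∀ i : ι, ∀ x : Unit → ℂ, cmp i (Function.update (fun _ : ι => I) i (x ())) = x := by
    intro i x
    funext j
    show Function.update (fun _ : ι => I) i (x ()) i = x j
    rw [Function.update_self]
  have hkey : ∀ i : ι, ∀ b ∈ Hr ι, FF gm i (Function.update (fun _ : ι => I) i (b i)) = FF gm i b := by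
    intro i b hb
    refine rig_FF hB hg hf i _ (update_mem h0 i (hb i)) b hb ?_
    rw [Function.update_self]
  have hFF : ∀ i : ι, ∀ b ∈ Hr ι, 0 ≤ FF gm i b := fun i b hb => mul_nonneg (sq_nonneg _) (ww_real hg hf hb i).1
  obtain ⟨K, hKD, hK, hcov⟩ := hB.cocompact
  have hcont : ∀ i : ι, Continuous (cmp i : (ι → ℂ) → (Unit → ℂ)) := fun i => continuous_pi fun _ => continuous_apply i
  have hK1 : ∀ i : ι, IsCompact (cmp i '' K) := fun i => hK.image (hcont i)
  have hK2 : ∀ i : ι, cmp i '' K ⊆ halfPlane := by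
    rintro i _ ⟨b, hb, rfl⟩
    exact cmp_mem (hKD hb) i
  have hK3 : ∀ i : ι, ∀ x ∈ halfPlane, ∃ γ ∈ (pr i).range, mob γ x ∈ cmp i '' K := by
    intro i x hx
    obtain ⟨γ, hγ⟩ := hcov _ (hup i x hx)
    refine ⟨pr i γ, ⟨γ, rfl⟩, _, hγ, ?_⟩
    rw [cmp_mobr, hcmp]
  have hex : ∀ i : ι, ∃ u : (Unit → ℂ) → ℝ, ContDiffOn ℝ ∞ u halfPlane ∧ (∀ γ ∈ (pr i).range, ∀ x ∈ halfPlane, u (mob γ x) = u x) ∧
      ∀ x ∈ halfPlane, dz () (fun y => dzbar () (fun y => ((u y : ℝ) : ℂ)) y) x =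
        (((Real.exp (u x) - (2 + 4 * FF gm i (Function.update (fun _ : ι => I) i (x ())))) / (4 * (x ()).im ^ 2) : ℝ) : ℂ) := by
    intro i
    refine KW.kw_set (Γ := (pr i).range) (hK1 i) (hK2 i) (hK3 i) (f := fun x => 2 + 4 * FF gm i (Function.update (fun _ : ι => I) i (x ()))) ?_ ?_ ?_
    · have h1 : ContDiff ℝ ∞ (fun x : Unit → ℂ => Function.update (fun _ : ι => I) i (x ())) := by
        rw [contDiff_pi]
        intro j
        by_cases hj : j = i
        · subst hj
          simp only [Function.update_self]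
          exact contDiff_apply ℝ ℂ ()
        · simp only [Function.update_of_ne hj]
          exact contDiff_const
      exact contDiffOn_const.add (contDiffOn_const.mul ((FF_smooth hg i).comp h1.contDiffOn (fun x hx => hup i x hx)))
    · intro x hx
      have := hFF i _ (hup i x hx)
      show 0 < 2 + 4 * FF gm i (Function.update (fun _ : ι => I) i (x ()))
      linarith
    · rintro _ ⟨γ, rfl⟩ x hx
      have h1 := hup i x hx
      have h2 := FF_inv hB hg hf γ h1 i
      have h3 := hkey i _ (mobr_mem (pr := pr) γ h1)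
      have h4 : mobr pr γ (Function.update (fun _ : ι => I) i (x ())) i = mob (pr i γ) x () := by
        rw [mobr_apply, hcmp]
      rw [h4] at h3
      show 2 + 4 * FF gm i (Function.update (fun _ : ι => I) i (mob (pr i γ) x ())) = 2 + 4 * FF gm i (Function.update (fun _ : ι => I) i (x ()))
      rw [h3, h2]
  choose u hu hi heq using hex
  have hsc := fun i => scale_gen (hK1 i) (hK2 i) (hK3 i) (hc i) (hu i) (hi i)
  choose s hs hcoh using hsc
  refine ⟨betr s u, betr_isKahler hs hu fun i γ x hx => hi i (pr i γ) ⟨γ, rfl⟩ x hx, coh_fac hcoh, ∑ i, 1 / (4 * s i), ?_, ?_⟩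
  · intro hne
    exact Finset.sum_pos (fun i _ => by have := hs i; positivity) Finset.univ_nonempty
  · intro b hb
    refine betr_tw (w := fun i j => dz i (fun y => dzbar j (ldm (hv gm)) y) b) (N := fun i => (dz i (fun y => dzbar i (ldm (hv gm)) y) b).re) hs hu hb ?_ ?_
    · intro i
      apply Complex.ext
      · simp
      · simpa using (ww_real hg hf hb i).2
    · intro i
      have h1 := heq i (cmp i b) (cmp_mem hb i)
      have h2 : FF gm i (Function.update (fun _ : ι => I) i (cmp i b ())) = FF gm i b := hkey i b hb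
      rw [h2] at h1
      rw [h1]
      have h3 : (cmp i b ()).im = (b i).im := rfl
      rw [h3]
      unfold FF
      congr 3
      ring

/-- The main theorem: classes with base part `∑ c_i ω_i`. -/
theorem asm_main (hB : CompactBase (Hr ι) (mobr pr))
    (hg : IsKahler (tot κ (Hr ι)) T.total gm) (hf : FibreFlat T gm) (hgg : Cohomologous (tot κ (Hr ι)) T.total g gm) (hc : ∀ i, 0 < c i)
    (hcoh : Cohomologous (Hr ι) (Set.range (mobr pr)) (sch gm) (poin c)) :
    ∃ g', IsKahler (tot κ (Hr ι)) T.total g' ∧ FibreFlat T g' ∧ Cohomologous (tot κ (Hr ι)) T.total g g' ∧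
      ∃ r : ℝ, (Nonempty ι → 0 < r) ∧ ∀ x ∈ tot κ (Hr ι), scal g' x = ((-r : ℝ) : ℂ) := by
  obtain ⟨β', h1, h2, r, h3, h4⟩ := asm_twscal hB hg hf hc
  obtain ⟨g', a1, a2, a3, a4⟩ := (flat_iff hB hg hf hgg (-r)).1 ⟨β', h1, coh_trans hB.isOpen hcoh h2, h4⟩
  exact ⟨g', a1, a2, a3, r, h3, a4⟩

end TRed
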