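import Pool.Agent.Lib.MP_464db4_gt.TR.Pos

/-!
# TH-BochA: the Bochner formula

`M_i = mM T · i`, `B_i = mB T · i`, `C = ccB T i j = ∂_j B_i - M_j B_i`, `N_i = nnB T i = trace (B_i * mconj B_i)`; `mconj` is multiplicative (`Pb_mconj_mul` in TR/Pb.lean, or prove it), `mdz i (mconj F) = mconj (mdb i F)`,
`mdb i (mconj F) = mconj (mdz i F)` (`dz_conj`, `dzbar_conj`), `dz i (trace F) = trace (mdz i F)` (`dz_sum`).
* `dzbar_nnB`: on `D`: `∂̄_j N_i = trace (∂̄_j B_i * mconj B_i + B_i * mconj (∂_j B_i)) = trace (-B_i * mconj M_j * mconj B_i + B_i * mconj (C + M_j * B_i)) = trace (B_i * mconj C)` (`mdb_mB`).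
* `mdb_ccB`: `∂̄_j C = ∂_j (∂̄_j B_i) - (∂̄_j M_j) B_i - M_j ∂̄_j B_i` (`dz_dzbar_comm`) `= -∂_j B_i * mconj M_j - B_i * mconj (∂̄_j M_j) + B_j * mconj B_j * B_i + M_j * B_i * mconj M_j`
  `= -C * mconj M_j + B_i * mconj B_j * B_j + B_j * mconj B_j * B_i` (`mdb_mM`, `mdb_mB`).
* `bochner`: `∂_j ∂̄_j N_i = trace (∂_j B_i * mconj C + B_i * mconj (∂̄_j C))`, and `trace (M_j * B_i * mconj C) = trace (B_i * mconj C * M_j)`.
All the given facts are in TR/Pos.lean.  Smoothness: `mM_smooth`, `mB_smooth`, `dz_contDiffOn`, `conj_contDiffOn`; `MDiff.of_smooth`.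
-/

namespace TRed

open Complex Matrix MeasureTheory YT
open scoped ContDiff ComplexConjugate ComplexOrder

variable {ι κ : Type} [Fintype ι] [DecidableEq ι] [Fintype κ] [DecidableEq κ] {G : Type} [Group G] {D : Set (ι → ℂ)}
  {f : G → (ι → ℂ) → (ι → ℂ)} {T : TorusFamily κ D f} {gm : (ι ⊕ κ → ℂ) → Matrix (ι ⊕ κ) (ι ⊕ κ) ℂ} {S : Set ((ι ⊕ κ → ℂ) → (ι ⊕ κ → ℂ))} {b : ι → ℂ}

/-- `∂_j B_i - M_j B_i`. -/
noncomputable def ccB (T : TorusFamily κ D f) (i j : ι) (b : ι → ℂ) : Matrix κ κ ℂ := mdz j (fun y => mB T y i) b - mM T b j * mB T b i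

/-- `trace (B_i * mconj B_i)`. -/
noncomputable def nnB (T : TorusFamily κ D f) (i : ι) (b : ι → ℂ) : ℂ := (mB T b i * mconj (mB T b i)).trace

private theorem BochA_mul {α β γ : Type} [Fintype β] (M : Matrix α β ℂ) (N : Matrix β γ ℂ) : mconj (M * N) = mconj M * mconj N := by
  ext k l
  simp only [mconj, Matrix.map_apply, Matrix.mul_apply, map_sum, map_mul]

private theorem BochA_add {α β : Type} (M N : Matrix α β ℂ) : mconj (M + N) = mconj M + mconj N := by
  ext k l
  simp only [mconj, Matrix.map_apply, Matrix.add_apply, map_add]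

private theorem BochA_neg {α β : Type} (M : Matrix α β ℂ) : mconj (-M) = -mconj M := by
  ext k l
  simp only [mconj, Matrix.map_apply, Matrix.neg_apply, map_neg]

private theorem BochA_invol {α β : Type} (M : Matrix α β ℂ) : mconj (mconj M) = M := by
  ext k l
  simp only [mconj, Matrix.map_apply, Complex.conj_conj]

private theorem BochA_mdz_mconj (F : (ι → ℂ) → Matrix κ κ ℂ) (b : ι → ℂ) (i : ι) : mdz i (fun y => mconj (F y)) b = mconj (mdb i F b) := by
  ext k l
  exact dz_conj i (fun y => F y k l) b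

private theorem BochA_mdb_mconj (F : (ι → ℂ) → Matrix κ κ ℂ) (b : ι → ℂ) (i : ι) : mdb i (fun y => mconj (F y)) b = mconj (mdz i F b) := by
  ext k l
  exact dzbar_conj i (fun y => F y k l) b

private theorem BochA_dmconj {F : (ι → ℂ) → Matrix κ κ ℂ} {b : ι → ℂ} (hF : MDiff F b) : MDiff (fun y => mconj (F y)) b := by
  intro k l
  exact (Complex.conjCLE : ℂ →L[ℝ] ℂ).differentiableAt.comp b (hF k l)

private theorem BochA_mdz_neg (F : (ι → ℂ) → Matrix κ κ ℂ) (b : ι → ℂ) (i : ι) : mdz i (fun y => -F y) b = -mdz i F b := by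
  ext k l
  show dz i (fun y => -(F y k l)) b = -dz i (fun y => F y k l) b
  unfold dz
  rw [fderiv_fun_neg]
  simp only [_root_.neg_apply]
  ring

private theorem BochA_dz_trace {F : (ι → ℂ) → Matrix κ κ ℂ} {b : ι → ℂ} (hF : MDiff F b) (i : ι) :
    dz i (fun y => (F y).trace) b = (mdz i F b).trace :=
  dz_sum Finset.univ (fun (k : κ) y => F y k k) i fun k _ => hF k k

private theorem BochA_dzbar_trace {F : (ι → ℂ) → Matrix κ κ ℂ} {b : ι → ℂ} (hF : MDiff F b) (i : ι) :
    dzbar i (fun y => (F y).trace) b = (mdb i F b).trace :=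
  dzbar_sum Finset.univ (fun (k : κ) y => F y k k) i fun k _ => hF k k

private theorem BochA_mdz_congr {F G : (ι → ℂ) → Matrix κ κ ℂ} (hD : IsOpen D) (h : ∀ y ∈ D, F y = G y) (hb : b ∈ D) (i : ι) :
    mdz i F b = mdz i G b := by
  ext k l
  exact dz_congr_on hD (fun y hy => congrFun (congrFun (h y hy) k) l) hb i

private theorem BochA_dM (hD : IsOpen D) (hb : b ∈ D) (i : ι) : MDiff (fun y => mM T y i) b :=
  MDiff.of_smooth hD (mM_smooth hD i) hb

private theorem BochA_dB (hD : IsOpen D) (hb : b ∈ D) (i : ι) : MDiff (fun y => mB T y i) b :=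
  MDiff.of_smooth hD (mB_smooth hD i) hb

private theorem BochA_dzB (hD : IsOpen D) (hb : b ∈ D) (i j : ι) : MDiff (fun y => mdz j (fun x => mB T x i) y) b :=
  MDiff.of_smooth hD (fun k l => dz_contDiffOn hD (mB_smooth (T := T) hD i k l) j) hb

private theorem BochA_dC (hD : IsOpen D) (hb : b ∈ D) (i j : ι) : MDiff (ccB T i j) b :=
  (BochA_dzB hD hb i j).sub ((BochA_dM hD hb j).mul (BochA_dB hD hb i))

private theorem BochA_C (i j : ι) (b : ι → ℂ) : mdz j (fun y => mB T y i) b = ccB T i j b + mM T b j * mB T b i := by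
  unfold ccB
  rw [sub_add_cancel]

theorem nnB_smooth (T : TorusFamily κ D f) (hD : IsOpen D) (i : ι) : ContDiffOn ℝ ∞ (nnB T i) D := by
  have h1 : nnB T i = fun y => ∑ k : κ, ∑ m : κ, mB T y i k m * conj (mB T y i m k) := by
    funext y
    unfold nnB
    rw [Matrix.trace]
    refine Finset.sum_congr rfl fun k _ => ?_
    rw [Matrix.diag_apply, Matrix.mul_apply]
    rfl
  rw [h1]
  exact ContDiffOn.sum fun k _ => ContDiffOn.sum fun m _ => (mB_smooth hD i k m).mul (conj_contDiffOn (mB_smooth hD i m k))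

theorem dzbar_nnB (hD : IsOpen D) (hb : b ∈ D) (i j : ι) : dzbar j (nnB T i) b = (mB T b i * mconj (ccB T i j b)).trace := by
  have h1 : nnB T i = fun y => ((fun x => mB T x i * mconj (mB T x i)) y).trace := rfl
  rw [h1, BochA_dzbar_trace ((BochA_dB hD hb i).mul (BochA_dmconj (BochA_dB hD hb i))),
    mdb_mul (BochA_dB hD hb i) (BochA_dmconj (BochA_dB hD hb i)), BochA_mdb_mconj, mdb_mB hD hb, BochA_C, BochA_add, BochA_mul]
  congr 1
  noncomm_ring

theorem mdb_ccB (hD : IsOpen D) (hb : b ∈ D) (i j : ι) :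
    mdb j (ccB T i j) b = -(ccB T i j b * mconj (mM T b j)) + mB T b i * mconj (mB T b j) * mB T b j + mB T b j * mconj (mB T b j) * mB T b i := by
  have h1 : ccB T i j = fun y => (fun x => mdz j (fun z => mB T z i) x) y - (fun x => mM T x j * mB T x i) y := rfl
  have h2 : mdb j (fun x => mdz j (fun z => mB T z i) x) b = mdz j (fun y => -(mB T y i * mconj (mM T y j))) b := by
    rw [← BochA_mdz_congr hD (fun y hy => mdb_mB (T := T) hD hy i j) hb j]
    ext k l
    exact (dz_dzbar_comm hD (mB_smooth (T := T) hD i k l) hb j j).symm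
  rw [h1, mdb_sub (BochA_dzB hD hb i j) ((BochA_dM hD hb j).mul (BochA_dB hD hb i)), ← h1, h2, BochA_mdz_neg,
    mdz_mul (BochA_dB hD hb i) (BochA_dmconj (BochA_dM hD hb j)), BochA_mdz_mconj, mdb_mul (BochA_dM hD hb j) (BochA_dB hD hb i),
    mdb_mM hD hb, mdb_mB hD hb, BochA_C, BochA_neg, BochA_mul, BochA_invol]
  noncomm_ring

theorem bochner (hD : IsOpen D) (hb : b ∈ D) (i j : ι) :
    dz j (fun y => dzbar j (nnB T i) y) b = (ccB T i j b * mconj (ccB T i j b)).trace +
      (mB T b i * mconj (mB T b i) * (mB T b j * mconj (mB T b j))).trace + (mB T b i * mconj (mB T b j) * (mB T b j * mconj (mB T b i))).trace := by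
  have h1 : dz j (fun y => dzbar j (nnB T i) y) b = dz j (fun y => ((fun x => mB T x i * mconj (ccB T i j x)) y).trace) b :=
    dz_congr_on hD (fun y hy => dzbar_nnB hD hy i j) hb j
  rw [h1, BochA_dz_trace ((BochA_dB hD hb i).mul (BochA_dmconj (BochA_dC hD hb i j))),
    mdz_mul (BochA_dB hD hb i) (BochA_dmconj (BochA_dC hD hb i j)), BochA_mdz_mconj, mdb_ccB hD hb, BochA_C]
  simp only [BochA_add, BochA_neg, BochA_mul, BochA_invol]
  have h2 : (mM T b j * (mB T b i * mconj (ccB T i j b))).trace = (mB T b i * mconj (ccB T i j b) * mM T b j).trace :=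
    Matrix.trace_mul_comm _ _
  have h3 : (ccB T i j b + mM T b j * mB T b i) * mconj (ccB T i j b) +
      mB T b i * (-(mconj (ccB T i j b) * mM T b j) + mconj (mB T b i) * mB T b j * mconj (mB T b j) +
        mconj (mB T b j) * mB T b j * mconj (mB T b i)) =
      ccB T i j b * mconj (ccB T i j b) + mB T b i * mconj (mB T b i) * (mB T b j * mconj (mB T b j)) +
        mB T b i * mconj (mB T b j) * (mB T b j * mconj (mB T b i)) +
        (mM T b j * (mB T b i * mconj (ccB T i j b)) - mB T b i * mconj (ccB T i j b) * mM T b j) := by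
    noncomm_ring
  rw [h3, Matrix.trace_add, Matrix.trace_sub, h2, sub_self, add_zero, Matrix.trace_add, Matrix.trace_add]

end TRed
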