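import Pool.Agent.Lib.MP_464db4_gt.TR.Rel

/-!
# TH-PosM: positivity of some traces

* `tr_pos`: with `A⁻¹ = Pᴴ * P`, `A'⁻¹ = Q * Qᴴ` (`pshB_sqrt` in KT/PshB.lean, `P`, `Q` invertible): the trace is `trace ((P * Y * Q) * (P * Y * Q)ᴴ)` (`trace_mul_comm`), so it is `≥ 0`, and `0` only if `P * Y * Q = 0`
  (`Matrix.trace_mul_conjTranspose_self_eq_zero_iff` or `Matrix.trace_conjTranspose_mul_self_eq_zero_iff`).
* For `h` positive definite (`hᴴ = h`) and `B` with `(Bᵀ * h)ᵀ = Bᵀ * h`: put `s = Bᵀ * h`, `sᵀ = s`; `hᵀ * B = s` (transpose), so `B = (hᵀ)⁻¹ * s`, and `mconj hᵀ = h` (`h` hermitian), so `mconj B = h⁻¹ * mconj s`,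
  `mconj s = sᴴ` (`s` symmetric), `sᵀ = s`.
* `tr_B`: `trace (B * mconj B) = trace ((hᵀ)⁻¹ * s * h⁻¹ * sᴴ)`; `hᵀ` is positive definite (`Matrix.PosDef.transpose`).
* `tr_BB`: with `s' = B'ᵀ * h`: `trace (B * mconj B * (B' * mconj B')) = trace (mconj B' * B * (mconj B * B'))` (cyclic), and `mconj B * B' = h⁻¹ * X`, `X = mconj s * (hᵀ)⁻¹ * s'`, `mconj B' * B = h⁻¹ * Xᴴ`
  (`Xᴴ = s'ᴴ * (hᵀ)⁻¹ * (mconj s)ᴴ = mconj s' * (hᵀ)⁻¹ * s`).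
* `tr_BC`: `trace (B * mconj B' * (B' * mconj B)) = trace ((hᵀ)⁻¹ * Y * (hᵀ)⁻¹ * Yᴴ)`, `Y = s * h⁻¹ * mconj s'`: `B * mconj B' = (hᵀ)⁻¹ * Y`, `B' * mconj B = (hᵀ)⁻¹ * Yᴴ`.
-/

namespace TRed

open Complex Matrix MeasureTheory YT
open scoped ContDiff ComplexConjugate ComplexOrder

variable {κ : Type} [Fintype κ] [DecidableEq κ] {A A' h B B' Y : Matrix κ κ ℂ}

open scoped MatrixOrder in
private theorem PosM_sqrt {N : Matrix κ κ ℂ} (hN : N.PosSemidef) : ∃ C : Matrix κ κ ℂ, N = Cᴴ * C :=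
  CStarAlgebra.nonneg_iff_eq_star_mul_self.mp hN.nonneg

private theorem PosM_tr (hA : A.PosDef) (hA' : A'.PosDef) (Y : Matrix κ κ ℂ) :
    ∃ P Q : Matrix κ κ ℂ, A⁻¹ = Pᴴ * P ∧ A'⁻¹ = Q * Qᴴ ∧
      (A⁻¹ * Y * A'⁻¹ * Yᴴ).trace = (P * Y * Q * (P * Y * Q)ᴴ).trace := by
  obtain ⟨P, hP⟩ := PosM_sqrt hA.inv.posSemidef
  obtain ⟨C, hC⟩ := PosM_sqrt hA'.inv.posSemidef
  refine ⟨P, Cᴴ, hP, ?_, ?_⟩
  · rw [conjTranspose_conjTranspose]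
    exact hC
  · rw [hP, hC]
    simp only [conjTranspose_mul, conjTranspose_conjTranspose]
    rw [show Pᴴ * P * Y * (Cᴴ * C) * Yᴴ = Pᴴ * (P * Y * (Cᴴ * C) * Yᴴ) by simp only [Matrix.mul_assoc],
      Matrix.trace_mul_comm]
    simp only [Matrix.mul_assoc]

theorem tr_pos (hA : A.PosDef) (hA' : A'.PosDef) (Y : Matrix κ κ ℂ) : 0 ≤ (A⁻¹ * Y * A'⁻¹ * Yᴴ).trace := by
  obtain ⟨P, Q, _, _, e⟩ := PosM_tr hA hA' Y
  rw [e]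
  exact (Matrix.posSemidef_self_mul_conjTranspose _).trace_nonneg

theorem tr_pos_eq (hA : A.PosDef) (hA' : A'.PosDef) (h0 : (A⁻¹ * Y * A'⁻¹ * Yᴴ).trace = 0) : Y = 0 := by
  obtain ⟨P, Q, hP, hQ, e⟩ := PosM_tr hA hA' Y
  rw [e, Matrix.trace_mul_conjTranspose_self_eq_zero_iff] at h0
  have hu : IsUnit A.det := (Matrix.isUnit_iff_isUnit_det _).1 hA.isUnit
  have hu' : IsUnit A'.det := (Matrix.isUnit_iff_isUnit_det _).1 hA'.isUnit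
  have h1 : A⁻¹ * Y * A'⁻¹ = 0 := by
    rw [hP, hQ, show Pᴴ * P * Y * (Q * Qᴴ) = Pᴴ * (P * Y * Q) * Qᴴ by simp only [Matrix.mul_assoc], h0,
      Matrix.mul_zero, Matrix.zero_mul]
  have h2 : A * (A⁻¹ * Y * A'⁻¹) * A' = Y := by
    rw [show A * (A⁻¹ * Y * A'⁻¹) * A' = (A * A⁻¹) * Y * (A'⁻¹ * A') by simp only [Matrix.mul_assoc],
      Matrix.mul_nonsing_inv _ hu, Matrix.nonsing_inv_mul _ hu', Matrix.one_mul, Matrix.mul_one]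
  rw [← h2, h1, Matrix.mul_zero, Matrix.zero_mul]

private theorem PosM_B (hh : h.PosDef) : B = (hᵀ)⁻¹ * (hᵀ * B) ∧ mconj B = h⁻¹ * (Bᵀ * h)ᴴ := by
  have hu : IsUnit h.det := (Matrix.isUnit_iff_isUnit_det _).1 hh.isUnit
  have hu' : IsUnit hᵀ.det := (Matrix.isUnit_iff_isUnit_det _).1 hh.transpose.isUnit
  constructor
  · rw [Matrix.nonsing_inv_mul_cancel_left _ _ hu']
  · have h1 : (Bᵀ * h)ᴴ = h * mconj B := by
      rw [conjTranspose_mul, hh.1.eq]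
      rfl
    rw [h1, Matrix.nonsing_inv_mul_cancel_left _ _ hu]

private theorem PosM_C (hh : h.PosDef) (hB : (Bᵀ * h)ᵀ = Bᵀ * h) :
    ∃ s : Matrix κ κ ℂ, B = (hᵀ)⁻¹ * s ∧ mconj B = h⁻¹ * sᴴ := by
  obtain ⟨h1, h2⟩ := PosM_B (B := B) hh
  refine ⟨Bᵀ * h, ?_, h2⟩
  have h3 : hᵀ * B = Bᵀ * h := by
    rw [← hB, transpose_mul, transpose_transpose]
  rw [← h3]
  exact h1

theorem tr_B (hh : h.PosDef) (hB : (Bᵀ * h)ᵀ = Bᵀ * h) : 0 ≤ (B * mconj B).trace := by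
  obtain ⟨s, h1, h2⟩ := PosM_C hh hB
  have h3 := tr_pos hh.transpose hh s
  rw [h2, h1]
  convert h3 using 2
  simp only [Matrix.mul_assoc]

theorem tr_BB (hh : h.PosDef) (hB : (Bᵀ * h)ᵀ = Bᵀ * h) (hB' : (B'ᵀ * h)ᵀ = B'ᵀ * h) : 0 ≤ (B * mconj B * (B' * mconj B')).trace := by
  obtain ⟨s, h1, h2⟩ := PosM_C hh hB
  obtain ⟨s', h1', h2'⟩ := PosM_C hh hB'
  have hi : ((hᵀ)⁻¹)ᴴ = (hᵀ)⁻¹ := hh.transpose.inv.1.eq
  have h3 := tr_pos hh hh (s'ᴴ * (hᵀ)⁻¹ * s)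
  have e : (B * mconj B * (B' * mconj B')).trace = (mconj B' * B * (mconj B * B')).trace := by
    rw [show B * mconj B * (B' * mconj B') = (B * mconj B * B') * mconj B' by simp only [Matrix.mul_assoc],
      Matrix.trace_mul_comm]
    simp only [Matrix.mul_assoc]
  rw [e, h2, h2', h1, h1']
  simp only [conjTranspose_mul, conjTranspose_conjTranspose, hi] at h3
  convert h3 using 2
  simp only [Matrix.mul_assoc]

theorem tr_BC (hh : h.PosDef) (hB : (Bᵀ * h)ᵀ = Bᵀ * h) (hB' : (B'ᵀ * h)ᵀ = B'ᵀ * h) : 0 ≤ (B * mconj B' * (B' * mconj B)).trace := by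
  obtain ⟨s, h1, h2⟩ := PosM_C hh hB
  obtain ⟨s', h1', h2'⟩ := PosM_C hh hB'
  have hi : (h⁻¹)ᴴ = h⁻¹ := hh.inv.1.eq
  have h3 := tr_pos hh.transpose hh.transpose (s * h⁻¹ * s'ᴴ)
  rw [h2, h2', h1, h1']
  simp only [conjTranspose_mul, conjTranspose_conjTranspose, hi] at h3
  convert h3 using 2
  simp only [Matrix.mul_assoc]

theorem tr_BC_eq (hh : h.PosDef) (hB : (Bᵀ * h)ᵀ = Bᵀ * h) (hB' : (B'ᵀ * h)ᵀ = B'ᵀ * h) (h0 : (B * mconj B' * (B' * mconj B)).trace = 0) :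
    B * mconj B' = 0 := by
  obtain ⟨s, h1, h2⟩ := PosM_C hh hB
  obtain ⟨s', h1', h2'⟩ := PosM_C hh hB'
  have hi : (h⁻¹)ᴴ = h⁻¹ := hh.inv.1.eq
  have h3 : s * h⁻¹ * s'ᴴ = 0 := by
    apply tr_pos_eq hh.transpose hh.transpose
    rw [h2, h2', h1, h1'] at h0
    simp only [conjTranspose_mul, conjTranspose_conjTranspose, hi]
    convert h0 using 2
    simp only [Matrix.mul_assoc]
  rw [h1, h2', show (hᵀ)⁻¹ * s * (h⁻¹ * s'ᴴ) = (hᵀ)⁻¹ * (s * h⁻¹ * s'ᴴ) by simp only [Matrix.mul_assoc], h3,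
    Matrix.mul_zero]

end TRed
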