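import Pool.Agent.Lib.MP_464db4_gt.TH.BochA
import Pool.Agent.Lib.MP_464db4_gt.TH.PosM
import Pool.Agent.Lib.MP_464db4_gt.TR.Wp

/-!
# TH-BochB: consequences of the Bochner formula

`M_i = mM T · i`, `B_i = mB T · i`, `C = ccB T i j`, `h = hv gm`.
* `ww_tr`: `∂_i ∂̄_j ldm = ∂̄_j ∂_i ldm` (`dz_dzbar_comm`, `ldm_smoothR`, `hv_smoothR`, `hv_posDefR`) `= -∂̄_j trace M_i = trace (B_i * mconj B_j)` (`dz_ldm_flat` on the open set `D`, `dzbar_congr_on`, `mdb_mM`).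
* `ccB_sym`: `hᵀ * B_i = (B_iᵀ * h)ᵀ = B_iᵀ * h` on `D` (`rel_B`), so `hᵀ * B_i` is symmetric on `D`; `∂_j (hᵀ * B_i) = -hᵀ * M_j * B_i + hᵀ * ∂_j B_i = hᵀ * C` (`rel_h`: `∂_j h = -(M_jᵀ * h)`, transposed
  `∂_j hᵀ = -hᵀ * M_j`) is symmetric, and `(Cᵀ * h)ᵀ = hᵀ * C`.
* `nnB_sub`, `nnB_eq`: `bochner` with `tr_B` (for `C`, `ccB_sym`), `tr_BB`, `tr_BC`, `tr_BC_eq` (for `B_i`, `B_j`, `rel_B`; `hv_posDefR`); in the partial order of `ℂ` sums of nonnegative numbers are nonnegative, and if the sum is `0` then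
  each is (`add_eq_zero_iff_of_nonneg`).
-/

namespace TRed

open Complex Matrix MeasureTheory YT
open scoped ContDiff ComplexConjugate ComplexOrder

variable {ι κ : Type} [Fintype ι] [DecidableEq ι] [Fintype κ] [DecidableEq κ] {G : Type} [Group G] {D : Set (ι → ℂ)}
  {f : G → (ι → ℂ) → (ι → ℂ)} {T : TorusFamily κ D f} {gm : (ι ⊕ κ → ℂ) → Matrix (ι ⊕ κ) (ι ⊕ κ) ℂ} {S : Set ((ι ⊕ κ → ℂ) → (ι ⊕ κ → ℂ))} {b : ι → ℂ}

theorem ww_tr (hD : IsOpen D) (hg : IsKahler (tot κ D) S gm) (hf : FibreFlat T gm) (hb : b ∈ D) (i j : ι) :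
    dz i (fun y => dzbar j (ldm (hv gm)) y) b = (mB T b i * mconj (mB T b j)).trace :=
  (wp_eq hD hg hf hb i j).trans (wp_formula hD hb i j)

theorem ccB_sym (hD : IsOpen D) (hg : IsKahler (tot κ D) S gm) (hf : FibreFlat T gm) (hb : b ∈ D) (i j : ι) :
    ((ccB T i j b)ᵀ * hv gm b)ᵀ = (ccB T i j b)ᵀ * hv gm b := by
  have hB : MDiff (fun y => mB T y i) b := MDiff.of_smooth hD (fun k l => mB_smooth hD i k l) hb
  have hBt : MDiff (fun y => (mB T y i)ᵀ) b := fun k l => hB l k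
  have hh : MDiff (hv gm) b := MDiff.of_smooth hD (fun k l => hv_smoothR hg k l) hb
  have e1 : mdz j (fun y => (mB T y i)ᵀ * hv gm y) b = (ccB T i j b)ᵀ * hv gm b := by
    rw [mdz_mul hBt hh, rel_h hD hg hf hb]
    have e2 : mdz j (fun y => (mB T y i)ᵀ) b = (mdz j (fun y => mB T y i) b)ᵀ := rfl
    rw [e2]
    unfold ccB
    rw [Matrix.transpose_sub, Matrix.transpose_mul, Matrix.sub_mul, Matrix.mul_neg, Matrix.mul_assoc, sub_eq_add_neg]
  rw [← e1]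
  ext k l
  show dz j (fun y => ((mB T y i)ᵀ * hv gm y) l k) b = dz j (fun y => ((mB T y i)ᵀ * hv gm y) k l) b
  exact dz_congr_on hD (fun y hy => congrFun (congrFun (rel_B hD hg hf hy i) k) l) hb j

theorem nnB_sub (hD : IsOpen D) (hg : IsKahler (tot κ D) S gm) (hf : FibreFlat T gm) (hb : b ∈ D) (i j : ι) :
    0 ≤ dz j (fun y => dzbar j (nnB T i) y) b := by
  have hh := hv_posDefR hg hb
  have hi := rel_B hD hg hf hb i
  have hj := rel_B hD hg hf hb j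
  rw [bochner hD hb]
  exact add_nonneg (add_nonneg (tr_B hh (ccB_sym hD hg hf hb i j)) (tr_BB hh hi hj)) (tr_BC hh hi hj)

theorem nnB_eq (hD : IsOpen D) (hg : IsKahler (tot κ D) S gm) (hf : FibreFlat T gm) (hb : b ∈ D) (i j : ι)
    (h0 : dz j (fun y => dzbar j (nnB T i) y) b = 0) : mB T b i * mconj (mB T b j) = 0 := by
  have hh := hv_posDefR hg hb
  have hi := rel_B hD hg hf hb i
  have hj := rel_B hD hg hf hb j
  rw [bochner hD hb] at h0
  exact tr_BC_eq hh hi hj ((add_eq_zero_iff_of_nonneg (add_nonneg (tr_B hh (ccB_sym hD hg hf hb i j)) (tr_BB hh hi hj)) (tr_BC hh hi hj)).1 h0).2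

end TRed
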