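import Pool.Agent.Lib.MP_464db4_gt.TR.Defs

/-!
# Products of upper half planes, definitions

`Hr ι` is the product of upper half planes, with the coordinates `b i`, `i ∈ ι`.  A group `G` acts on it through homomorphisms `pr i : G → SL(2,ℝ)` by Moebius
transformations of the coordinates.
-/

namespace TRed

open Complex Matrix MeasureTheory YT
open scoped ContDiff ComplexConjugate ComplexOrder

/-- The product of upper half planes. -/
def Hr (ι : Type) : Set (ι → ℂ) := {b | ∀ i, 0 < (b i).im}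

/-- The map `b ↦ ((pr_i(γ)) (b_i))_i`, where `SL(2,ℝ)` acts by Moebius transformations. -/
noncomputable def mobr {ι G : Type} [Group G] (pr : ι → G →* Matrix.SpecialLinearGroup (Fin 2) ℝ) (γ : G) (b : ι → ℂ) : ι → ℂ :=
  fun i => (((pr i γ 0 0 : ℝ) : ℂ) * b i + ((pr i γ 0 1 : ℝ) : ℂ)) / (((pr i γ 1 0 : ℝ) : ℂ) * b i + ((pr i γ 1 1 : ℝ) : ℂ))

/-- The form `i ∑ c_i dz_i ∧ dz̄_i / y_i²`, `y_i = im z_i`. -/
noncomputable def poin {ι : Type} [DecidableEq ι] (c : ι → ℝ) (b : ι → ℂ) : Matrix ι ι ℂ :=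
  Matrix.diagonal fun i => ((c i / (b i).im ^ 2 : ℝ) : ℂ)

end TRed
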