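import Pool.Agent.Lib.MP_464db4_gt.TH.Defs
import Pool.Agent.Lib.MP_464db4_gt.KW.Wir
import Pool.Agent.Lib.MP_464db4_gt.YT.Mob
import Pool.Agent.Lib.MP_464db4_gt.TR.Calc

/-!
# TH-FacA: functions of one coordinate, slices

* `cmp i b = fun _ => b i : Unit → ℂ`, the `i`-th coordinate; ℂ-linear in `b`, so holomorphic, with Jacobian `δ`.  `dz_cmp`, `dzbar_cmp`: `dz_comp`, `dzbar_comp` (YT/WirtB.lean) with `F = cmp i`, `jac (cmp i) b () j = if j = i then 1 else 0`
  (`dz_hol`, `fderiv` of the linear map).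
* `dd_cmp`: twice `dz_cmp`, `dzbar_cmp` with `dz_congr_on` on `Hr ι`.
* `slice_smooth`, `slice_lap`: `t ↦ Function.update b j t` is affine; recommended: `dzbar_comp` and `dz_comp` with `F = fun y : Unit → ℂ => Function.update b j (y ())` and `KW.lapE_eq` (KW/Wir.lean) for the function `φ ∘ update b j`
  (`KW.lift`); or directly from the chain rule (`fderiv ℝ (fun t => φ (update b j t)) t v = fderiv ℝ φ (update b j t) (Pi.single j v)`), `lapE = dx dx + dy dy`, `4 ∂_j ∂̄_j = (∂_x - i ∂_y)(∂_x + i ∂_y)`, and the symmetry of the second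
  derivative.
-/

namespace TRed

open Complex Matrix MeasureTheory YT
open scoped ContDiff ComplexConjugate ComplexOrder

variable {ι : Type} [Fintype ι] [DecidableEq ι] {G : Type} [Group G] {pr : ι → G →* Matrix.SpecialLinearGroup (Fin 2) ℝ} {b : ι → ℂ}

omit [Fintype ι] [DecidableEq ι] in
/-- The `i`-th coordinate as a point of `ℂ^1`. -/
def cmp (i : ι) (b : ι → ℂ) : Unit → ℂ := fun _ => b i

theorem isOpen_Hr : IsOpen (Hr ι) := by
  have h : Hr ι = ⋂ i, {b : ι → ℂ | 0 < (b i).im} := by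
    ext b
    simp [Hr]
  rw [h]
  exact isOpen_iInter_of_finite fun i =>
    isOpen_lt continuous_const (Complex.continuous_im.comp (continuous_apply i))

omit [Fintype ι] [DecidableEq ι] in
theorem cmp_mem (hb : b ∈ Hr ι) (i : ι) : cmp i b ∈ halfPlane := hb i

omit [Fintype ι] in
theorem update_mem (hb : b ∈ Hr ι) (i : ι) {t : ℂ} (ht : t ∈ KW.hp) : Function.update b i t ∈ Hr ι := by
  intro k
  rcases eq_or_ne k i with rfl | h
  · rw [Function.update_self]
    exact ht
  · rw [Function.update_of_ne h]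
    exact hb k

omit [DecidableEq ι] in
private theorem FacA_cmp_smooth (i : ι) : ContDiff ℝ ∞ (cmp i : (ι → ℂ) → (Unit → ℂ)) :=
  contDiff_pi.2 fun _ => contDiff_apply ℝ ℂ i

omit [DecidableEq ι] in
private theorem FacA_cmp_hol (i : ι) : DifferentiableAt ℂ (cmp i : (ι → ℂ) → (Unit → ℂ)) b :=
  differentiableAt_pi.2 fun _ => differentiableAt_apply i b

private theorem FacA_proj (i j : ι) (x : ι → ℂ) : dz j (fun y : ι → ℂ => y i) x = if j = i then 1 else 0 := by
  rw [dz_hol j (differentiableAt_apply i x)]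
  have h : fderiv ℂ (fun y : ι → ℂ => y i) x = ContinuousLinearMap.proj i :=
    (ContinuousLinearMap.proj (R := ℂ) (φ := fun _ : ι => ℂ) i).hasFDerivAt.fderiv
  rw [h, ContinuousLinearMap.proj_apply, Pi.single_apply]
  exact if_congr ⟨Eq.symm, Eq.symm⟩ rfl rfl

private theorem FacA_jac_cmp (i j : ι) : jac (cmp i) b () j = if j = i then 1 else 0 := by
  rw [jac, of_apply]
  exact FacA_proj i j b

private theorem FacA_upd_smooth (b : ι → ℂ) (j : ι) : ContDiff ℝ ∞ (fun t : ℂ => Function.update b j t) :=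
  contDiff_update ∞ b j

private theorem FacA_upd_hol (b : ι → ℂ) (j : ι) (x : Unit → ℂ) :
    DifferentiableAt ℂ (fun y : Unit → ℂ => Function.update b j (y ())) x := by
  have h1 : DifferentiableAt ℂ (fun t : ℂ => Function.update b j t) (x ()) :=
    (hasFDerivAt_update b (x ())).differentiableAt
  have h0 : DifferentiableAt ℂ (fun y : Unit → ℂ => y ()) x := differentiableAt_apply () x
  exact DifferentiableAt.comp (g := fun t : ℂ => Function.update b j t) x h1 h0

omit [Fintype ι] in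
private theorem FacA_jac_upd (b : ι → ℂ) (j k : ι) (x : Unit → ℂ) :
    jac (fun y : Unit → ℂ => Function.update b j (y ())) x k () = if k = j then 1 else 0 := by
  rw [jac, of_apply]
  rcases eq_or_ne k j with rfl | h
  · rw [if_pos rfl]
    have e : (fun y : Unit → ℂ => Function.update b k (y ()) k) = fun y => y () := by
      funext y
      rw [Function.update_self]
    rw [e, FacA_proj () () x, if_pos rfl]
  · rw [if_neg h]
    have e : (fun y : Unit → ℂ => Function.update b j (y ()) k) = fun _ => b k := by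
      funext y
      rw [Function.update_of_ne h]
    rw [e, dz_const]

theorem cmp_smooth {E : Type} [NormedAddCommGroup E] [NormedSpace ℝ E] {ψ : (Unit → ℂ) → E} (hψ : ContDiffOn ℝ ∞ ψ halfPlane) (i : ι) : ContDiffOn ℝ ∞ (fun y => ψ (cmp i y)) (Hr ι) := by
  exact hψ.comp (FacA_cmp_smooth i).contDiffOn fun y hy => cmp_mem hy i

theorem dz_cmp {ψ : (Unit → ℂ) → ℂ} (i j : ι) (hψ : DifferentiableAt ℝ ψ (cmp i b)) :
    dz j (fun y => ψ (cmp i y)) b = if j = i then dz () ψ (cmp i b) else 0 := by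
  rw [dz_comp (FacA_cmp_hol i) hψ j, Fintype.sum_unique]
  change dz () ψ (cmp i b) * jac (cmp i) b () j = _
  rw [FacA_jac_cmp]
  split_ifs
  · rw [mul_one]
  · rw [mul_zero]

theorem dzbar_cmp {ψ : (Unit → ℂ) → ℂ} (i j : ι) (hψ : DifferentiableAt ℝ ψ (cmp i b)) :
    dzbar j (fun y => ψ (cmp i y)) b = if j = i then dzbar () ψ (cmp i b) else 0 := by
  rw [dzbar_comp (FacA_cmp_hol i) hψ j, Fintype.sum_unique]
  change dzbar () ψ (cmp i b) * conj (jac (cmp i) b () j) = _
  rw [FacA_jac_cmp]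
  split_ifs
  · rw [map_one, mul_one]
  · rw [map_zero, mul_zero]

theorem dd_cmp {ψ : (Unit → ℂ) → ℂ} (hψ : ContDiffOn ℝ ∞ ψ halfPlane) (hb : b ∈ Hr ι) (i j k : ι) :
    dz j (fun y => dzbar k (fun y => ψ (cmp i y)) y) b = if j = i ∧ k = i then dz () (fun y => dzbar () ψ y) (cmp i b) else 0 := by
  have hd : ∀ y ∈ Hr ι, DifferentiableAt ℝ ψ (cmp i y) := fun y hy =>
    (hψ.contDiffAt (isOpen_halfPlane.mem_nhds (cmp_mem hy i))).differentiableAt (by simp)
  have e : ∀ y ∈ Hr ι, dzbar k (fun y => ψ (cmp i y)) y = if k = i then dzbar () ψ (cmp i y) else 0 :=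
    fun y hy => dzbar_cmp i k (hd y hy)
  rw [dz_congr_on isOpen_Hr e hb j]
  by_cases hk : k = i
  · simp only [hk, and_true, if_true]
    have hd2 : DifferentiableAt ℝ (fun y => dzbar () ψ y) (cmp i b) :=
      ((dzbar_contDiffOn isOpen_halfPlane hψ ()).contDiffAt
        (isOpen_halfPlane.mem_nhds (cmp_mem hb i))).differentiableAt (by simp)
    exact dz_cmp (ψ := fun y => dzbar () ψ y) i j hd2
  · simp only [hk, and_false, if_false]
    exact dz_const j 0

theorem slice_smooth {φ : (ι → ℂ) → ℝ} (hφ : ContDiffOn ℝ ∞ φ (Hr ι)) (hb : b ∈ Hr ι) (j : ι) :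
    ContDiffOn ℝ ∞ (fun t => φ (Function.update b j t)) KW.hp := by
  exact hφ.comp (FacA_upd_smooth b j).contDiffOn fun t ht => update_mem hb j ht

theorem slice_lap {φ : (ι → ℂ) → ℝ} (hφ : ContDiffOn ℝ ∞ φ (Hr ι)) (hb : b ∈ Hr ι) (j : ι) {t : ℂ} (ht : t ∈ KW.hp) :
    dz j (fun y => dzbar j (fun y => ((φ y : ℝ) : ℂ)) y) (Function.update b j t) =
      ((KW.lapE (fun t => φ (Function.update b j t)) t / 4 : ℝ) : ℂ) := by
  have hΦ : ContDiffOn ℝ ∞ (fun y : ι → ℂ => ((φ y : ℝ) : ℂ)) (Hr ι) :=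
    Complex.ofRealCLM.contDiff.comp_contDiffOn hφ
  have hx : (fun _ => t : Unit → ℂ) ∈ halfPlane := ht
  have hmem : ∀ x ∈ halfPlane, Function.update b j (x ()) ∈ Hr ι := fun x hx => update_mem hb j hx
  have h1 := KW.lapE_eq (slice_smooth hφ hb j) hx
  have e : ∀ x ∈ halfPlane, dzbar () (KW.lift fun t => φ (Function.update b j t)) x =
      dzbar j (fun y => ((φ y : ℝ) : ℂ)) (Function.update b j (x ())) := by
    intro x hx
    have hd : DifferentiableAt ℝ (fun y : ι → ℂ => ((φ y : ℝ) : ℂ)) (Function.update b j (x ())) :=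
      (hΦ.contDiffAt (isOpen_Hr.mem_nhds (hmem x hx))).differentiableAt (by simp)
    have h2 := dzbar_comp (FacA_upd_hol b j x) hd ()
    have h3 : (KW.lift fun t => φ (Function.update b j t)) =
        fun y : Unit → ℂ => ((φ (Function.update b j (y ())) : ℝ) : ℂ) := rfl
    rw [h3, h2, Finset.sum_eq_single j]
    · rw [FacA_jac_upd, if_pos rfl, map_one, mul_one]
    · intro k _ hk
      rw [FacA_jac_upd, if_neg hk, map_zero, mul_zero]
    · intro h
      exact absurd (Finset.mem_univ j) h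
  rw [dz_congr_on isOpen_halfPlane e hx ()] at h1
  have hd2 : DifferentiableAt ℝ (fun y => dzbar j (fun y => ((φ y : ℝ) : ℂ)) y)
      (Function.update b j ((fun _ => t : Unit → ℂ) ())) :=
    ((dzbar_contDiffOn isOpen_Hr hΦ j).contDiffAt
      (isOpen_Hr.mem_nhds (hmem _ hx))).differentiableAt (by simp)
  have h4 := dz_comp (f := fun y => dzbar j (fun y => ((φ y : ℝ) : ℂ)) y)
    (FacA_upd_hol b j (fun _ => t)) hd2 ()
  rw [h4, Finset.sum_eq_single j] at h1
  · rw [FacA_jac_upd, if_pos rfl, mul_one] at h1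
    exact h1
  · intro k _ hk
    rw [FacA_jac_upd, if_neg hk, mul_zero]
  · intro h
    exact absurd (Finset.mem_univ j) h

end TRed
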