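import Pool.Agent.Lib.MP_464db4_gt.TH.FacA

/-!
# TH-FacB: the maps `mobr`

* `mobr_mem`: `mob_mem`.  `mobr_hol`: `mob_hol`.  `jac_mobr`: `mobr pr γ y i = mob (pr i γ) (cmp i y) ()`, `dz_cmp` and `jac_mob` (YT/Mob.lean).  `im_mobr`: `im_mob`.
* `dd_mobr`: `u` smooth on `Hr ι`: `∂_i ∂̄_i (u ∘ mobr γ) = |mj|² (∂_i ∂̄_i u) ∘ mobr γ`: `dzbar_comp`, `dz_comp`, `dz_mul` as in the proof of `KW.dz_dzbar_mob` (KW/Wir.lean), the Jacobian is diagonal.
-/

namespace TRed

open Complex Matrix MeasureTheory YT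
open scoped ContDiff ComplexConjugate ComplexOrder

variable {ι : Type} [Fintype ι] [DecidableEq ι] {G : Type} [Group G] {pr : ι → G →* Matrix.SpecialLinearGroup (Fin 2) ℝ} {b : ι → ℂ}

omit [Fintype ι] [DecidableEq ι] in
theorem mobr_apply (γ : G) (b : ι → ℂ) (i : ι) : mobr pr γ b i = mob (pr i γ) (cmp i b) () := rfl

omit [Fintype ι] [DecidableEq ι] in
theorem cmp_mobr (γ : G) (b : ι → ℂ) (i : ι) : cmp i (mobr pr γ b) = mob (pr i γ) (cmp i b) := rfl

theorem mobr_mem (γ : G) (hb : b ∈ Hr ι) : mobr pr γ b ∈ Hr ι := fun i =>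
  mob_mem (pr i γ) (cmp_mem hb i)

private theorem FacB_cmp (i : ι) (b : ι → ℂ) : DifferentiableAt ℂ (cmp i) b :=
  differentiableAt_pi.2 fun _ => (ContinuousLinearMap.proj (R := ℂ) (φ := fun _ : ι => ℂ) i).differentiableAt

private theorem FacB_mob (δ : Matrix.SpecialLinearGroup (Fin 2) ℝ) (i : ι) (hb : b ∈ Hr ι) :
    DifferentiableAt ℂ (fun y => mob δ (cmp i y) ()) b := by
  have h1 : DifferentiableAt ℂ (mob δ) (cmp i b) :=
    (mob_hol δ).differentiableAt (isOpen_halfPlane.mem_nhds (cmp_mem hb i))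
  have h2 : DifferentiableAt ℂ (fun y => mob δ y ()) (cmp i b) := differentiableAt_pi.1 h1 ()
  exact DifferentiableAt.comp b h2 (FacB_cmp i b)

theorem mobr_hol (γ : G) : DifferentiableOn ℂ (mobr pr γ) (Hr ι) := by
  intro b hb
  refine (differentiableAt_pi.2 fun i => ?_).differentiableWithinAt
  exact FacB_mob (pr i γ) i hb

theorem jac_mobr (γ : G) (hb : b ∈ Hr ι) (i j : ι) : jac (mobr pr γ) b i j = if i = j then mj (pr i γ) (cmp i b) else 0 := by
  have h1 : DifferentiableAt ℂ (mob (pr i γ)) (cmp i b) :=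
    (mob_hol (pr i γ)).differentiableAt (isOpen_halfPlane.mem_nhds (cmp_mem hb i))
  have h2 : DifferentiableAt ℂ (fun y => mob (pr i γ) y ()) (cmp i b) := differentiableAt_pi.1 h1 ()
  have h3 := dz_cmp (b := b) (ψ := fun y => mob (pr i γ) y ()) i j (h2.restrictScalars ℝ)
  have h4 : jac (mobr pr γ) b i j = dz j (fun y => mob (pr i γ) (cmp i y) ()) b := rfl
  have h5 : dz () (fun y => mob (pr i γ) y ()) (cmp i b) = mj (pr i γ) (cmp i b) :=
    jac_mob (pr i γ) (cmp_mem hb i) () ()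
  rw [h4, h3, h5]
  by_cases h : i = j
  · rw [if_pos h, if_pos h.symm]
  · rw [if_neg h, if_neg (Ne.symm h)]

theorem im_mobr (γ : G) (hb : b ∈ Hr ι) (i : ι) : (mobr pr γ b i).im = (b i).im * ‖mj (pr i γ) (cmp i b)‖ :=
  im_mob (pr i γ) (cmp_mem hb i)

theorem dd_mobr {u : (ι → ℂ) → ℂ} (hu : ContDiffOn ℝ ∞ u (Hr ι)) (γ : G) (hb : b ∈ Hr ι) (i : ι) :
    dz i (fun y => dzbar i (fun y => u (mobr pr γ y)) y) b =
      mj (pr i γ) (cmp i b) * conj (mj (pr i γ) (cmp i b)) * dz i (fun y => dzbar i u y) (mobr pr γ b) := by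
  have hF : ∀ y ∈ Hr ι, DifferentiableAt ℂ (mobr pr γ) y := fun y hy =>
    (mobr_hol γ).differentiableAt (isOpen_Hr.mem_nhds hy)
  have hud : ∀ y ∈ Hr ι, DifferentiableAt ℝ u (mobr pr γ y) := fun y hy =>
    (hu.contDiffAt (isOpen_Hr.mem_nhds (mobr_mem γ hy))).differentiableAt (by simp)
  have e : ∀ y ∈ Hr ι, dzbar i (fun y => u (mobr pr γ y)) y =
      dzbar i u (mobr pr γ y) * conj (mj (pr i γ) (cmp i y)) := by
    intro y hy
    rw [dzbar_comp (hF y hy) (hud y hy) i, Finset.sum_eq_single i]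
    · rw [jac_mobr γ hy, if_pos rfl]
    · intro k _ hk
      rw [jac_mobr γ hy, if_neg hk, map_zero, mul_zero]
    · exact fun h => absurd (Finset.mem_univ i) h
  rw [dz_congr_on isOpen_Hr e hb i]
  have hg : DifferentiableAt ℝ (fun y => dzbar i u y) (mobr pr γ b) :=
    ((dzbar_contDiffOn isOpen_Hr hu i).contDiffAt (isOpen_Hr.mem_nhds (mobr_mem γ hb))).differentiableAt (by simp)
  have hgF : DifferentiableAt ℝ (fun y => dzbar i u (mobr pr γ y)) b :=
    DifferentiableAt.comp b hg ((hF b hb).restrictScalars ℝ)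
  have hmj0 : DifferentiableAt ℂ (mj (pr i γ)) (cmp i b) :=
    (mj_hol (pr i γ)).differentiableAt (isOpen_halfPlane.mem_nhds (cmp_mem hb i))
  have hmj : DifferentiableAt ℂ (fun y => mj (pr i γ) (cmp i y)) b := by
    have := hmj0.comp b (FacB_cmp i b)
    exact this
  have hmjc : DifferentiableAt ℝ (fun y => conj (mj (pr i γ) (cmp i y))) b :=
    Complex.conjCLE.differentiableAt.comp b (hmj.restrictScalars ℝ)
  rw [dz_mul i hgF hmjc, dz_conj, dzbar_hol i hmj, map_zero, mul_zero, add_zero]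
  have h3 := dz_comp (f := fun y => dzbar i u y) (hF b hb) hg i
  rw [Finset.sum_eq_single i] at h3
  · rw [jac_mobr γ hb, if_pos rfl] at h3
    have h4 : dz i (fun y => dzbar i u (mobr pr γ y)) b =
        dz i (fun y => dzbar i u y) (mobr pr γ b) * mj (pr i γ) (cmp i b) := h3
    rw [h4]
    ring
  · intro k _ hk
    rw [jac_mobr γ hb, if_neg hk, mul_zero]
  · exact fun h => absurd (Finset.mem_univ i) h

end TRed
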