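import Pool.Agent.Lib.MP_464db4_gt.TR.Glue

/-!
# TH-InvA: the transformation of `log det h`, and `∂∂̄ log |a|² = 0`
-/

namespace TRed

open Complex Matrix MeasureTheory YT
open scoped ContDiff ComplexConjugate ComplexOrder

section gen

variable {ι κ : Type} [Fintype ι] [DecidableEq ι] [Fintype κ] [DecidableEq κ] {G : Type} [Group G] {D : Set (ι → ℂ)}
  {f : G → (ι → ℂ) → (ι → ℂ)} {T : TorusFamily κ D f} {gm : (ι ⊕ κ → ℂ) → Matrix (ι ⊕ κ) (ι ⊕ κ) ℂ} {b : ι → ℂ}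

theorem hv_cov (hB : CompactBase D f) (hg : IsKahler (tot κ D) T.total gm) (hf : FibreFlat T gm) (γ : G) (hb : b ∈ D) :
    (T.A γ b)ᵀ * hv gm (f γ b) * mconj (T.A γ b) = hv gm b := by
  have hD := hB.isOpen
  have hx : (pt b 0 : ι ⊕ κ → ℂ) ∈ tot κ D := pt_mem_tot hb 0
  have hby : bas (T.F γ (pt b 0)) = f γ b := by
    rw [bas_F, bas_pt]
  have hi := hg.inv (T.F γ) (Or.inl ⟨γ, rfl⟩) _ hx
  have h22 : (gm (T.F γ (pt b 0))).toBlocks₂₂ = hv gm (f γ b) := by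
    have h1 := flat_h hD hg hf (hB.maps γ b hb) (fib (T.F γ (pt b 0)))
    have h2 : (pt (f γ b) (fib (T.F γ (pt b 0))) : ι ⊕ κ → ℂ) = T.F γ (pt b 0) := by
      rw [← hby, pt_bas_fib]
    rw [h2] at h1
    exact h1
  have hA : (jac (T.F γ) (pt b 0)).toBlocks₂₂ = T.A γ b := by
    ext k l
    have h := jac_F_inr T hD γ hx k l
    rw [bas_pt] at h
    exact h
  rw [jac_F_blk hB T γ hx, bas_pt, hA, ← fromBlocks_toBlocks (gm (T.F γ (pt b 0))), asm_mconj, fromBlocks_transpose,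
    fromBlocks_multiply, fromBlocks_multiply] at hi
  have h3 := congrArg Matrix.toBlocks₂₂ hi
  rw [toBlocks_fromBlocks₂₂, h22] at h3
  have h4 : hv gm b = (gm (pt b 0)).toBlocks₂₂ := rfl
  rw [h4, ← h3]
  simp only [transpose_zero, Matrix.zero_mul, Matrix.mul_zero, zero_add]

private theorem InvA_det_mconj {ν : Type} [Fintype ν] [DecidableEq ν] (A : Matrix ν ν ℂ) : (mconj A).det = conj A.det := by
  unfold mconj
  rw [RingHom.map_det]
  rfl

theorem ldm_cov (hB : CompactBase D f) (hg : IsKahler (tot κ D) T.total gm) (hf : FibreFlat T gm) (γ : G) (hb : b ∈ D) :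
    (T.A γ b).det ≠ 0 ∧ ldm (hv gm) b = ldm (hv gm) (f γ b) + ((Real.log (‖(T.A γ b).det‖ ^ 2) : ℝ) : ℂ) := by
  have h := congrArg Matrix.det (hv_cov hB hg hf γ hb)
  rw [det_mul, det_mul, det_transpose, InvA_det_mconj] at h
  have p1 : 0 < (hv gm b).det := (hv_posDefR hg hb).det_pos
  have p2 : 0 < (hv gm (f γ b)).det := (hv_posDefR hg (hB.maps γ b hb)).det_pos
  have hA : (T.A γ b).det ≠ 0 := by
    intro h0
    rw [h0, zero_mul, zero_mul] at h
    rw [← h] at p1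
    exact lt_irrefl _ p1
  have q2 : 0 < (hv gm (f γ b)).det.re := (Complex.pos_iff.1 p2).1
  have e : (hv gm b).det = ((‖(T.A γ b).det‖ ^ 2 : ℝ) : ℂ) * (hv gm (f γ b)).det := by
    rw [← h, ← Complex.normSq_eq_norm_sq, ← Complex.mul_conj]
    ring
  have e2 : (hv gm b).det.re = ‖(T.A γ b).det‖ ^ 2 * (hv gm (f γ b)).det.re := by
    rw [e, Complex.re_ofReal_mul]
  refine ⟨hA, ?_⟩
  have hn : ‖(T.A γ b).det‖ ^ 2 ≠ 0 := pow_ne_zero 2 (norm_ne_zero_iff.2 hA)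
  unfold ldm
  rw [e2, Real.log_mul hn q2.ne', ← Complex.ofReal_add, add_comm]

omit [DecidableEq ι] in
private theorem InvA_fderiv {a : (ι → ℂ) → ℂ} {y : ι → ℂ} (ha : DifferentiableAt ℂ a y) (h0 : a y ≠ 0) (v : ι → ℂ) :
    fderiv ℝ (fun y => ((Real.log (‖a y‖ ^ 2) : ℝ) : ℂ)) y v =
      fderiv ℂ a y v / a y + conj (fderiv ℂ a y v / a y) := by
  have h1 : HasFDerivAt a ((fderiv ℂ a y).restrictScalars ℝ) y := ha.hasFDerivAt.restrictScalars ℝ
  have h2 := h1.norm_sq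
  have hn : ‖a y‖ ^ 2 ≠ 0 := pow_ne_zero 2 (norm_ne_zero_iff.2 h0)
  have h3 := h2.log hn
  have h4 := Complex.ofRealCLM.hasFDerivAt.comp y h3
  have h5 : fderiv ℝ (fun y => ((Real.log (‖a y‖ ^ 2) : ℝ) : ℂ)) y = _ := h4.fderiv
  rw [h5]
  rw [Complex.add_conj]
  have h6 : (‖a y‖ ^ 2)⁻¹ * (2 * inner ℝ (a y) (fderiv ℂ a y v)) = 2 * (fderiv ℂ a y v / a y).re := by
    rw [Complex.inner, Complex.div_re, ← Complex.normSq_eq_norm_sq, Complex.mul_re, Complex.conj_re, Complex.conj_im]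
    ring
  rw [← h6]
  simp [nsmul_eq_mul]
  ring

/-- `∂∂̄ log |a|² = 0` for a holomorphic function without zeros. -/
theorem dd_log_hol (hD : IsOpen D) {a : (ι → ℂ) → ℂ} (ha : DifferentiableOn ℂ a D) (h0 : ∀ y ∈ D, a y ≠ 0) (hb : b ∈ D) (i j : ι) :
    ContDiffOn ℝ ∞ (fun y => ((Real.log (‖a y‖ ^ 2) : ℝ) : ℂ)) D ∧ dz i (fun y => dzbar j (fun y => ((Real.log (‖a y‖ ^ 2) : ℝ) : ℂ)) y) b = 0 := by
  have hF : DifferentiableOn ℂ (fun y => (fun _ : Unit => a y)) D := differentiableOn_pi.2 fun _ => ha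
  have hs : ContDiffOn ℝ ∞ a D := contDiffOn_pi.1 (hol_contDiffOn hD hF) ()
  constructor
  · have h1 : ContDiffOn ℝ ∞ (fun y => ‖a y‖ ^ 2) D := hs.norm_sq ℝ
    have h2 : ContDiffOn ℝ ∞ (fun y => Real.log (‖a y‖ ^ 2)) D :=
      h1.log fun y hy => pow_ne_zero 2 (norm_ne_zero_iff.2 (h0 y hy))
    exact Complex.ofRealCLM.contDiff.comp_contDiffOn h2
  · have hd : ∀ y ∈ D, DifferentiableAt ℂ a y := fun y hy => (ha y hy).differentiableAt (hD.mem_nhds hy)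
    have hj : DifferentiableOn ℂ (fun y => dz j a y / a y) D := by
      have h1 := (jac_hol hD hF () j).mul (ha.inv h0)
      exact h1
    have e : ∀ y ∈ D, dzbar j (fun y => ((Real.log (‖a y‖ ^ 2) : ℝ) : ℂ)) y = conj (dz j a y / a y) := by
      intro y hy
      unfold dzbar
      rw [InvA_fderiv (hd y hy) (h0 y hy), InvA_fderiv (hd y hy) (h0 y hy), dz_hol j (hd y hy)]
      have e1 : (Pi.single j I : ι → ℂ) = I • Pi.single j (1 : ℂ) := by
        rw [← Pi.single_smul, smul_eq_mul, mul_one]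
      rw [e1, map_smul, smul_eq_mul, mul_div_assoc, map_mul, conj_I]
      linear_combination (1 / 2 : ℂ) * (fderiv ℂ a y (Pi.single j 1) / a y - conj (fderiv ℂ a y (Pi.single j 1) / a y)) * I_mul_I
    rw [dz_congr_on hD e hb i, dz_conj, dzbar_hol i (hj.differentiableAt (hD.mem_nhds hb)), map_zero]

end gen

end TRed
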