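import Pool.Agent.Lib.MP_464db4_gt.TH.InvA
import Pool.Agent.Lib.MP_464db4_gt.TH.FacB

/-!
# TH-InvB: the functions `y_i² ∂_i ∂̄_i log det h` are invariant

* `inv_wwr`: `ldm_cov` on the open set `Hr ι`, `dd_mobr`, `dd_log_hol` for `a = det (T.A γ ·)` (holomorphic: `T.A_hol`, `Matrix.det_apply`), `dz_add`, `dzbar_add`; smoothness: `ldm_smoothR`, `hv_smoothR`, `hv_posDefR`,
  composition with `mobr` (`hol_contDiffOn`, `mobr_hol`, `mobr_mem`).
* `FF_inv`: the real parts, `im_mobr`: `im(mobr γ b)_i² = im(b_i)² |mj|²`, `mj * conj mj = |mj|²`.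
* `FF_smooth`: `ldm_smoothR`, `dz_contDiffOn`, `dzbar_contDiffOn`.
-/

namespace TRed

open Complex Matrix MeasureTheory YT
open scoped ContDiff ComplexConjugate ComplexOrder

variable {ι κ : Type} [Fintype ι] [DecidableEq ι] [Fintype κ] [DecidableEq κ] {G : Type} [Group G] {pr : ι → G →* Matrix.SpecialLinearGroup (Fin 2) ℝ}
  {T : TorusFamily κ (Hr ι) (mobr pr)} {gm : (ι ⊕ κ → ℂ) → Matrix (ι ⊕ κ) (ι ⊕ κ) ℂ} {b : ι → ℂ}

private theorem InvB_prod {E α : Type} [NormedAddCommGroup E] [NormedSpace ℂ E] {U : Set E} (s : Finset α)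
    (f : α → E → ℂ) (h : ∀ a ∈ s, DifferentiableOn ℂ (f a) U) : DifferentiableOn ℂ (fun y => ∏ a ∈ s, f a y) U := by
  classical
  induction s using Finset.induction_on with
  | empty => simp
  | insert a s ha ih =>
    have e : (fun y => ∏ b ∈ insert a s, f b y) = fun y => f a y * ∏ b ∈ s, f b y := by
      funext y
      rw [Finset.prod_insert ha]
    rw [e]
    exact (h a (Finset.mem_insert_self a s)).mul (ih (fun b hb => h b (Finset.mem_insert_of_mem hb)))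

private theorem InvB_det {E ν : Type} [Fintype ν] [DecidableEq ν] [NormedAddCommGroup E] [NormedSpace ℂ E] {U : Set E}
    {M : E → Matrix ν ν ℂ} (h : ∀ i j, DifferentiableOn ℂ (fun y => M y i j) U) : DifferentiableOn ℂ (fun y => (M y).det) U := by
  have e : (fun y => (M y).det) = fun y => ∑ σ : Equiv.Perm ν, ((Equiv.Perm.sign σ : ℤ) : ℂ) * ∏ i, M y (σ i) i := by
    funext y
    exact Matrix.det_apply' (M y)
  rw [e]
  exact DifferentiableOn.fun_sum fun σ _ => (InvB_prod Finset.univ (fun i y => M y (σ i) i) (fun i _ => h (σ i) i)).const_mul _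

private theorem InvB_ldm (hg : IsKahler (tot κ (Hr ι)) T.total gm) : ContDiffOn ℝ ∞ (ldm (hv gm)) (Hr ι) :=
  ldm_smoothR (hv_smoothR hg) (fun _ hb => hv_posDefR hg hb)

theorem inv_wwr (hB : CompactBase (Hr ι) (mobr pr)) (hg : IsKahler (tot κ (Hr ι)) T.total gm) (hf : FibreFlat T gm) (γ : G) (hb : b ∈ Hr ι) (i : ι) :
    dz i (fun y => dzbar i (ldm (hv gm)) y) b =
      mj (pr i γ) (cmp i b) * conj (mj (pr i γ) (cmp i b)) * dz i (fun y => dzbar i (ldm (hv gm)) y) (mobr pr γ b) := by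
  have hop : IsOpen (Hr ι) := isOpen_Hr
  have hdet : DifferentiableOn ℂ (fun y => (T.A γ y).det) (Hr ι) := InvB_det fun k l => T.A_hol γ k l
  have hne : ∀ y ∈ Hr ι, (T.A γ y).det ≠ 0 := fun y hy => (ldm_cov hB hg hf γ hy).1
  have hlog : ∀ y ∈ Hr ι, ldm (hv gm) y =
      ldm (hv gm) (mobr pr γ y) + ((Real.log (‖(T.A γ y).det‖ ^ 2) : ℝ) : ℂ) := fun y hy => (ldm_cov hB hg hf γ hy).2
  have hL := InvB_ldm hg
  have hL2 : ContDiffOn ℝ ∞ (fun y => ldm (hv gm) (mobr pr γ y)) (Hr ι) :=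
    ContDiffOn.comp (g := ldm (hv gm)) (f := mobr pr γ) hL (hol_contDiffOn hop (mobr_hol γ)) (fun y hy => mobr_mem γ hy)
  obtain ⟨hL1, hdd⟩ := dd_log_hol hop hdet hne hb i i
  have hat : ∀ {f : (ι → ℂ) → ℂ}, ContDiffOn ℝ ∞ f (Hr ι) → ∀ y ∈ Hr ι, DifferentiableAt ℝ f y :=
    fun hf y hy => (hf.contDiffAt (hop.mem_nhds hy)).differentiableAt (by simp)
  have hbar : ∀ y ∈ Hr ι, dzbar i (ldm (hv gm)) y = dzbar i (fun z => ldm (hv gm) (mobr pr γ z)) y +
      dzbar i (fun z => ((Real.log (‖(T.A γ z).det‖ ^ 2) : ℝ) : ℂ)) y := by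
    intro y hy
    rw [dzbar_congr_on hop hlog hy i, dzbar_add i (hat hL2 y hy) (hat hL1 y hy)]
  rw [dz_congr_on hop hbar hb i, dz_add i (hat (dzbar_contDiffOn hop hL2 i) b hb) (hat (dzbar_contDiffOn hop hL1 i) b hb),
    hdd, add_zero, dd_mobr hL γ hb i]

/-- The function `y_i² ∂_i ∂̄_i log det h`. -/
noncomputable def FF (gm : (ι ⊕ κ → ℂ) → Matrix (ι ⊕ κ) (ι ⊕ κ) ℂ) (i : ι) (b : ι → ℂ) : ℝ :=
  (b i).im ^ 2 * (dz i (fun y => dzbar i (ldm (hv gm)) y) b).re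

theorem FF_inv (hB : CompactBase (Hr ι) (mobr pr)) (hg : IsKahler (tot κ (Hr ι)) T.total gm) (hf : FibreFlat T gm) (γ : G) (hb : b ∈ Hr ι) (i : ι) :
    FF gm i (mobr pr γ b) = FF gm i b := by
  unfold FF
  rw [inv_wwr hB hg hf γ hb i, im_mobr γ hb i, Complex.mul_conj, Complex.normSq_eq_norm_sq, Complex.re_ofReal_mul]
  ring

theorem FF_smooth (hg : IsKahler (tot κ (Hr ι)) T.total gm) (i : ι) : ContDiffOn ℝ ∞ (FF gm i) (Hr ι) := by
  have hop : IsOpen (Hr ι) := isOpen_Hr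
  have h1 : ContDiffOn ℝ ∞ (fun b : ι → ℂ => (b i).im) (Hr ι) :=
    (Complex.imCLM.contDiff.comp (contDiff_apply ℝ ℂ i)).contDiffOn
  have h2 : ContDiffOn ℝ ∞ (fun b => dz i (fun y => dzbar i (ldm (hv gm)) y) b) (Hr ι) :=
    dz_contDiffOn hop (dzbar_contDiffOn hop (InvB_ldm hg) i) i
  have h3 : ContDiffOn ℝ ∞ (fun b => (dz i (fun y => dzbar i (ldm (hv gm)) y) b).re) (Hr ι) :=
    Complex.reCLM.contDiff.comp_contDiffOn h2
  exact (h1.pow 2).mul h3

end TRed
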