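import Pool.Agent.Lib.MP_464db4_gt.TH.FacB
import Pool.Agent.Lib.MP_464db4_gt.TH.Smp

/-!
# TH-Leaf: invariant functions which are subharmonic along the leaves `b_i = const`
-/

namespace TRed

open Complex Matrix MeasureTheory YT
open scoped ContDiff ComplexConjugate ComplexOrder

variable {ι : Type} [Fintype ι] [DecidableEq ι] {G : Type} [Group G] {pr : ι → G →* Matrix.SpecialLinearGroup (Fin 2) ℝ}

omit [Fintype ι] [DecidableEq ι] in
private theorem leaf_mobr (γ : G) (i : ι) {b : ι → ℂ} (hb : b ∈ Hr ι) :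
    mobr pr γ b i = ((pr i γ • (⟨b i, hb i⟩ : UpperHalfPlane) : UpperHalfPlane) : ℂ) :=
  congrFun (mob_coe (pr i γ) (⟨b i, hb i⟩ : UpperHalfPlane)) ()

omit [Fintype ι] [DecidableEq ι] in
/-- The closure of an orbit is invariant. -/
private theorem leaf_cl_inv (i : ι) (a : UpperHalfPlane) (γ : G) {z : UpperHalfPlane}
    (hz : z ∈ closure (Set.range fun γ : G => (pr i γ • a : UpperHalfPlane))) :
    pr i γ • z ∈ closure (Set.range fun γ : G => (pr i γ • a : UpperHalfPlane)) := by
  refine map_mem_closure (continuous_const_smul (pr i γ)) hz ?_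
  rintro _ ⟨δ, rfl⟩
  refine ⟨γ * δ, ?_⟩
  simp only [map_mul, mul_smul]

omit [Fintype ι] [DecidableEq ι] in
/-- The closures of the orbits form a partition. -/
private theorem leaf_cl_symm (i : ι) (a p : UpperHalfPlane)
    (hp : p ∈ closure (Set.range fun γ : G => (pr i γ • a : UpperHalfPlane))) :
    a ∈ closure (Set.range fun γ : G => (pr i γ • p : UpperHalfPlane)) := by
  rw [Metric.mem_closure_iff] at hp ⊢
  intro ε hε
  obtain ⟨_, ⟨γ, rfl⟩, h⟩ := hp ε hε
  refine ⟨_, ⟨γ⁻¹, rfl⟩, ?_⟩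
  have h2 : dist a ((pr i γ⁻¹) • p) = dist (pr i γ • a) p := by
    rw [← dist_smul (pr i γ) a ((pr i γ⁻¹) • p), ← mul_smul, ← map_mul, mul_inv_cancel, map_one, one_smul]
  show dist a ((pr i γ⁻¹) • p) < ε
  rw [h2, dist_comm]
  exact h

/-- A maximum over the points with `b i` in the closure of the orbit of `a`. -/
private theorem leaf_max (hB : CompactBase (Hr ι) (mobr pr)) (i : ι) {F : (ι → ℂ) → ℝ} (hF : ContinuousOn F (Hr ι))
    (hinv : ∀ γ : G, ∀ b ∈ Hr ι, F (mobr pr γ b) = F b) (a : UpperHalfPlane) {b₀ : ι → ℂ} (hb₀ : b₀ ∈ Hr ι)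
    (ha : b₀ i = a) :
    ∃ (p : ι → ℂ) (hp : p ∈ Hr ι),
      (⟨p i, hp i⟩ : UpperHalfPlane) ∈ closure (Set.range fun γ : G => (pr i γ • a : UpperHalfPlane)) ∧
      ∀ (b : ι → ℂ) (hb : b ∈ Hr ι),
        (⟨b i, hb i⟩ : UpperHalfPlane) ∈ closure (Set.range fun γ : G => (pr i γ • a : UpperHalfPlane)) → F b ≤ F p := by
  obtain ⟨K, hK, hKc, hKs⟩ := hB.cocompact
  have hc : CompactSpace K := isCompact_iff_compactSpace.1 hKc
  obtain ⟨Z, hZ⟩ : ∃ Z : Set UpperHalfPlane, Z = closure (Set.range fun γ : G => (pr i γ • a : UpperHalfPlane)) := ⟨_, rfl⟩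
  rw [← hZ]
  have hZc : IsClosed Z := by rw [hZ]; exact isClosed_closure
  have hZinv : ∀ (γ : G) (z : UpperHalfPlane), z ∈ Z → pr i γ • z ∈ Z := by
    rw [hZ]
    exact fun γ z hz => leaf_cl_inv i a γ hz
  obtain ⟨f, hf⟩ : ∃ f : K → UpperHalfPlane, f = fun b => ⟨b.1 i, hK b.2 i⟩ := ⟨_, rfl⟩
  have hfc : Continuous f := by
    rw [hf, UpperHalfPlane.isEmbedding_coe.continuous_iff]
    exact (continuous_apply i).comp continuous_subtype_val
  -- moving a point into `K`
  have hmove : ∀ (b : ι → ℂ) (hb : b ∈ Hr ι), (⟨b i, hb i⟩ : UpperHalfPlane) ∈ Z →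
      ∃ k : K, f k ∈ Z ∧ F k.1 = F b := by
    intro b hb hbZ
    obtain ⟨γ, hγ⟩ := hKs b hb
    refine ⟨⟨mobr pr γ b, hγ⟩, ?_, hinv γ b hb⟩
    have h1 : f ⟨mobr pr γ b, hγ⟩ = pr i γ • (⟨b i, hb i⟩ : UpperHalfPlane) := by
      rw [hf]
      exact UpperHalfPlane.ext (leaf_mobr γ i hb)
    rw [h1]
    exact hZinv γ _ hbZ
  have hne : (f ⁻¹' Z).Nonempty := by
    have h0 : (⟨b₀ i, hb₀ i⟩ : UpperHalfPlane) ∈ Z := by
      have h1 : (⟨b₀ i, hb₀ i⟩ : UpperHalfPlane) = a := UpperHalfPlane.ext ha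
      rw [h1, hZ]
      refine subset_closure ⟨1, ?_⟩
      simp
    obtain ⟨k, hk, -⟩ := hmove b₀ hb₀ h0
    exact ⟨k, hk⟩
  have hcomp : IsCompact (f ⁻¹' Z) := (hZc.preimage hfc).isCompact
  have hFc : Continuous fun k : K => F k.1 := by
    have h1 : ContinuousOn F K := hF.mono hK
    exact continuousOn_iff_continuous_domRestrict.1 h1
  obtain ⟨k, hk, hmax⟩ := hcomp.exists_isMaxOn hne hFc.continuousOn
  refine ⟨k.1, hK k.2, ?_, fun b hb hbZ => ?_⟩
  · have h1 : f k = ⟨k.1 i, hK k.2 i⟩ := by rw [hf]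
    rw [← h1]
    exact hk
  · obtain ⟨l, hl, e⟩ := hmove b hb hbZ
    rw [← e]
    exact hmax hl

private theorem leaf_const (hB : CompactBase (Hr ι) (mobr pr)) (i : ι) {F : (ι → ℂ) → ℝ} (hF : ContDiffOn ℝ ∞ F (Hr ι))
    (hinv : ∀ γ : G, ∀ b ∈ Hr ι, F (mobr pr γ b) = F b)
    (hsub : ∀ j, j ≠ i → ∀ b ∈ Hr ι, ∀ t ∈ KW.hp, 0 ≤ KW.lapE (fun t => F (Function.update b j t)) t)
    (b₀ : ι → ℂ) (hb₀ : b₀ ∈ Hr ι) : ∃ M : ℝ, ∀ b ∈ Hr ι, b i = b₀ i → F b = M := by
  classical
  obtain ⟨a, ha⟩ : ∃ a : UpperHalfPlane, a = ⟨b₀ i, hb₀ i⟩ := ⟨_, rfl⟩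
  have hab : b₀ i = a := by rw [ha]
  obtain ⟨p, hp, hpc, hmax⟩ := leaf_max hB i hF.continuousOn hinv a hb₀ hab
  refine ⟨F p, ?_⟩
  -- the leaf of `p`
  have hleaf : ∀ b ∈ Hr ι, b i = p i → F b = F p := by
    intro b hb hbi
    have key : ∀ s : Finset ι, (fun j => if j ∈ s then b j else p j) ∈ Hr ι ∧
        F (fun j => if j ∈ s then b j else p j) = F p := by
      intro s
      induction s using Finset.induction_on with
      | empty => simpa using hp
      | insert j s hj ih =>
        obtain ⟨h1, h2⟩ := ih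
        obtain ⟨q, hq⟩ : ∃ q : ι → ℂ, q = fun j => if j ∈ s then b j else p j := ⟨_, rfl⟩
        rw [← hq] at h1 h2
        have e : (fun k => if k ∈ insert j s then b k else p k) = Function.update q j (b j) := by
          funext k
          rw [hq]
          by_cases hk : k = j
          · subst hk
            simp
          · rw [Function.update_of_ne hk]
            simp [hk]
        rw [e]
        have hbj : b j ∈ KW.hp := hb j
        refine ⟨update_mem h1 j hbj, ?_⟩
        by_cases hji : j = i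
        · have h3 : Function.update q j (b j) = q := by
            have h4 : b j = q j := by
              rw [hq]
              simp only [hj, if_false]
              rw [hji, hbi]
            rw [h4, Function.update_eq_self]
          rw [h3, h2]
        · have hqi : q i = p i := by
            rw [hq]
            show (if i ∈ s then b i else p i) = p i
            split_ifs
            · exact hbi
            · rfl
          refine KW.smp (φ := fun t => F (Function.update q j t)) (slice_smooth hF h1 j)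
            (hsub j hji q h1) (M := F p) ?_ (z₀ := q j) (h1 j) ?_ (b j) hbj
          · intro z hz
            have hu := update_mem h1 j hz
            refine hmax _ hu ?_
            have h5 : (⟨Function.update q j z i, hu i⟩ : UpperHalfPlane) = ⟨p i, hp i⟩ := by
              apply UpperHalfPlane.ext
              show Function.update q j z i = p i
              rw [Function.update_of_ne (Ne.symm hji), hqi]
            rw [h5]
            exact hpc
          · show F (Function.update q j (q j)) = F p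
            rw [Function.update_eq_self]
            exact h2
    have h := (key Finset.univ).2
    simpa using h
  -- the translates
  have htr : ∀ (γ : G) (b : ι → ℂ), b ∈ Hr ι → b i = ((pr i γ • (⟨p i, hp i⟩ : UpperHalfPlane) : UpperHalfPlane) : ℂ) →
      F b = F p := by
    intro γ b hb hbi
    rw [← hinv γ⁻¹ b hb]
    refine hleaf _ (hB.maps γ⁻¹ b hb) ?_
    rw [leaf_mobr γ⁻¹ i hb]
    have h1 : (⟨b i, hb i⟩ : UpperHalfPlane) = pr i γ • (⟨p i, hp i⟩ : UpperHalfPlane) := UpperHalfPlane.ext hbi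
    rw [h1, ← mul_smul, ← map_mul, inv_mul_cancel, map_one, one_smul]
  have hacl := leaf_cl_symm i a ⟨p i, hp i⟩ hpc
  intro b hb hbi
  -- continuity
  have hcont : Continuous fun z : UpperHalfPlane => F (Function.update b i (z : ℂ)) := by
    have h1 : Continuous fun z : UpperHalfPlane => Function.update b i (z : ℂ) :=
      continuous_const.update i UpperHalfPlane.continuous_coe
    rw [← continuousOn_univ]
    exact hF.continuousOn.comp h1.continuousOn fun z _ => update_mem hb i z.2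
  have hcl : IsClosed {z : UpperHalfPlane | F (Function.update b i (z : ℂ)) = F p} :=
    isClosed_eq hcont continuous_const
  have hsubset : closure (Set.range fun γ : G => (pr i γ • (⟨p i, hp i⟩ : UpperHalfPlane) : UpperHalfPlane)) ⊆
      {z : UpperHalfPlane | F (Function.update b i (z : ℂ)) = F p} := by
    apply hcl.closure_subset_iff.2
    rintro _ ⟨γ, rfl⟩
    refine htr γ _ (update_mem hb i (UpperHalfPlane.coe_im_pos _)) ?_
    rw [Function.update_self]
  have h := hsubset hacl
  have h2 : F (Function.update b i (a : ℂ)) = F p := h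
  rw [← hab, ← hbi, Function.update_eq_self] at h2
  exact h2

theorem leaf (hB : CompactBase (Hr ι) (mobr pr)) (i : ι) {F : (ι → ℂ) → ℝ} (hF : ContDiffOn ℝ ∞ F (Hr ι))
    (hinv : ∀ γ : G, ∀ b ∈ Hr ι, F (mobr pr γ b) = F b)
    (hsub : ∀ j, j ≠ i → ∀ b ∈ Hr ι, ∀ t ∈ KW.hp, 0 ≤ KW.lapE (fun t => F (Function.update b j t)) t) :
    ∀ b ∈ Hr ι, ∀ b' ∈ Hr ι, b i = b' i → F b = F b' := by
  intro b hb b' hb' h
  obtain ⟨M, hM⟩ := leaf_const hB i hF hinv hsub b' hb'
  rw [hM b hb h, hM b' hb' rfl]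

end TRed
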