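import Pool.Agent.Lib.MP_464db4_gt.KW.Reg
import Pool.Agent.Lib.MP_464db4_gt.KW.Ker

/-!
# TH-PoA: the averaging operator on the bounded continuous functions on the upper half plane which are invariant under a subgroup of `SL(2,ℝ)`
-/

namespace KW

open Complex MeasureTheory Set Filter Topology
open scoped ContDiff BoundedContinuousFunction

variable {ν κ : ℝ → ℝ} {R C Λ : ℝ} {S : Subgroup (Matrix.SpecialLinearGroup (Fin 2) ℝ)}

/-- The upper half plane as a type. -/
abbrev HP := {z : ℂ // z ∈ hp}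

theorem I_mem_hp : (I : ℂ) ∈ hp := by
  rw [mem_hp]
  simp

/-- The point `i`. -/
noncomputable def HPI : HP := ⟨I, I_mem_hp⟩

/-- The extension by zero. -/
noncomputable def exb (φ : HP → ℝ) (w : ℂ) : ℝ := by
  classical exact if h : w ∈ hp then φ ⟨w, h⟩ else 0

theorem exb_of_mem (φ : HP → ℝ) {w : ℂ} (h : w ∈ hp) : exb φ w = φ ⟨w, h⟩ := by
  unfold exb
  exact dif_pos h

theorem exb_contOn (φ : HP →ᵇ ℝ) : ContinuousOn (exb φ) hp := by
  rw [continuousOn_iff_continuous_domRestrict]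
  have h1 : hp.domRestrict (exb φ) = φ := by
    funext z
    exact exb_of_mem _ z.2
  rw [h1]
  exact φ.continuous

theorem exb_abs_le (φ : HP →ᵇ ℝ) : ∀ w ∈ hp, |exb φ w| ≤ ‖φ‖ := by
  intro w hw
  rw [exb_of_mem _ hw]
  exact φ.norm_coe_le_norm ⟨w, hw⟩

/-- The bounded continuous functions which are invariant under `S`. -/
def XS (S : Subgroup (Matrix.SpecialLinearGroup (Fin 2) ℝ)) : Submodule ℝ (HP →ᵇ ℝ) where
  carrier := {φ | ∀ γ ∈ S, ∀ z : HP, φ ⟨mo γ z, mo_mem γ z.2⟩ = φ z}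
  add_mem' := by
    intro φ ψ hφ hψ γ hγ z
    rw [BoundedContinuousFunction.add_apply, BoundedContinuousFunction.add_apply, hφ γ hγ z, hψ γ hγ z]
  zero_mem' := fun γ _ z => rfl
  smul_mem' := by
    intro c φ hφ γ hγ z
    rw [BoundedContinuousFunction.smul_apply, BoundedContinuousFunction.smul_apply, hφ γ hγ z]

private theorem PoA_eval (z : HP) : Continuous fun φ : HP →ᵇ ℝ => φ z := (BoundedContinuousFunction.evalCLM ℝ z).continuous

theorem isClosed_XS : IsClosed (XS S : Set (HP →ᵇ ℝ)) := by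
  have h1 : (XS S : Set (HP →ᵇ ℝ)) = ⋂ γ ∈ S, ⋂ z : HP, {φ : HP →ᵇ ℝ | φ ⟨mo γ z, mo_mem γ z.2⟩ = φ z} := by
    ext φ
    simp only [Set.mem_iInter]
    rfl
  rw [h1]
  refine isClosed_biInter fun γ _ => isClosed_iInter fun z => ?_
  exact isClosed_eq (PoA_eval _) (PoA_eval _)

/-- The Banach space of the bounded continuous functions which are invariant under `S` (a type with its own instances). -/
def XT (S : Subgroup (Matrix.SpecialLinearGroup (Fin 2) ℝ)) : Type := XS S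

noncomputable instance : NormedAddCommGroup (XT S) := inferInstanceAs (NormedAddCommGroup (XS S))

noncomputable instance : NormedSpace ℝ (XT S) := inferInstanceAs (NormedSpace ℝ (XS S))

instance : CompleteSpace (XT S) := (isClosed_XS (S := S)).completeSpace_coe

/-- The underlying bounded continuous function. -/
def XT.val (φ : XT S) : HP →ᵇ ℝ := Subtype.val φ

theorem XT.mem (φ : XT S) : φ.val ∈ XS S := Subtype.prop φ

/-- The element given by an invariant function. -/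
def XT.mk (φ : HP →ᵇ ℝ) (h : φ ∈ XS S) : XT S := ⟨φ, h⟩

theorem XT.val_mk (φ : HP →ᵇ ℝ) (h : φ ∈ XS S) : (XT.mk φ h).val = φ := rfl

theorem XT.ext {φ ψ : XT S} (h : ∀ z, φ.val z = ψ.val z) : φ = ψ := Subtype.ext (BoundedContinuousFunction.ext h)

theorem XT.norm_val (φ : XT S) : ‖φ.val‖ = ‖φ‖ := rfl

theorem XT.dist_val (φ ψ : XT S) : dist φ.val ψ.val = dist φ ψ := rfl

theorem XT.val_add (φ ψ : XT S) : (φ + ψ).val = φ.val + ψ.val := rfl

theorem XT.val_sub (φ ψ : XT S) : (φ - ψ).val = φ.val - ψ.val := rfl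

theorem XT.val_smul (c : ℝ) (φ : XT S) : (c • φ).val = c • φ.val := rfl

/-- The averaging operator. -/
noncomputable def PPf (κ : ℝ → ℝ) (φ : ℂ → ℝ) (z : ℂ) : ℝ := cv (kn κ) φ z / ∫ w, kn κ w

theorem PPf_contOn (h : KPair ν κ R C Λ) {φ : ℂ → ℝ} (hφ : ContinuousOn φ hp) : ContinuousOn (PPf κ φ) hp :=
  (cv_continuousOn (gker_kn h.profK) hφ).div_const _

theorem PPf_abs_le (h : KPair ν κ R C Λ) {φ : ℂ → ℝ} (hφ : ContinuousOn φ hp) {M : ℝ} (hM : ∀ w ∈ hp, |φ w| ≤ M) {z : ℂ} (hz : z ∈ hp) :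
    |PPf κ φ z| ≤ M := by
  have h0 := massK_pos h
  have h1 := cv_abs_le (gker_kn h.profK) (kn_nonneg h.nonnegK) hφ hM hz
  unfold PPf
  rw [abs_div, abs_of_pos h0, div_le_iff₀ h0]
  exact h1

/-- The averaging operator on the bounded continuous functions. -/
noncomputable def PPb (h : KPair ν κ R C Λ) (φ : HP →ᵇ ℝ) : HP →ᵇ ℝ :=
  BoundedContinuousFunction.ofNormedAddCommGroup (fun z : HP => PPf κ (exb φ) z)
    (continuousOn_iff_continuous_domRestrict.1 (PPf_contOn h (exb_contOn φ))) ‖φ‖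
    (fun z => PPf_abs_le h (exb_contOn φ) (exb_abs_le φ) z.2)

theorem PPb_apply (h : KPair ν κ R C Λ) (φ : HP →ᵇ ℝ) (z : HP) : PPb h φ z = PPf κ (exb φ) z := rfl

/-- The averaging operator as a continuous linear map. -/
noncomputable def PPl (h : KPair ν κ R C Λ) : (HP →ᵇ ℝ) →L[ℝ] (HP →ᵇ ℝ) :=
  LinearMap.mkContinuous
    { toFun := PPb h
      map_add' := by
        intro φ ψ
        ext z
        rw [BoundedContinuousFunction.add_apply, PPb_apply, PPb_apply, PPb_apply]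
        unfold PPf
        rw [← add_div, ← cv_add (gker_kn h.profK) (exb_contOn φ) (exb_contOn ψ) z.2]
        congr 1
        refine cv_congr (gker_kn h.profK) (fun w hw => ?_) z.2
        rw [exb_of_mem _ hw, exb_of_mem _ hw, exb_of_mem _ hw]
        rfl
      map_smul' := by
        intro c φ
        ext z
        rw [RingHom.id_apply, BoundedContinuousFunction.smul_apply, PPb_apply, PPb_apply]
        unfold PPf
        rw [smul_eq_mul, mul_div_assoc', ← cv_const_mul]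
        congr 1
        refine cv_congr (gker_kn h.profK) (fun w hw => ?_) z.2
        rw [exb_of_mem _ hw, exb_of_mem _ hw]
        rfl } 1
    (fun φ => by
      rw [one_mul]
      exact (BoundedContinuousFunction.norm_le (norm_nonneg _)).2 fun z => PPf_abs_le h (exb_contOn φ) (exb_abs_le φ) z.2)

theorem PPl_apply (h : KPair ν κ R C Λ) (φ : HP →ᵇ ℝ) (z : HP) : PPl h φ z = PPf κ (exb φ) z := rfl

theorem PPl_mem (h : KPair ν κ R C Λ) {φ : HP →ᵇ ℝ} (hφ : φ ∈ XS S) : PPl h φ ∈ XS S := by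
  intro γ hγ z
  rw [PPl_apply, PPl_apply]
  unfold PPf
  show cv (kn κ) (exb φ) (mo γ z) / _ = _
  rw [← cv_mo γ κ (exb φ) z.2]
  congr 1
  refine cv_congr (gker_kn h.profK) (fun w hw => ?_) z.2
  rw [exb_of_mem _ hw, exb_of_mem _ (mo_mem γ hw)]
  exact hφ γ hγ ⟨w, hw⟩

/-- The constant function `1` is invariant. -/
theorem one_mem_XS : (1 : HP →ᵇ ℝ) ∈ XS S := fun _ _ _ => rfl

/-- The operator `φ ↦ P φ - φ(i)` on the invariant functions, as a linear map. -/
noncomputable def TXl (h : KPair ν κ R C Λ) (S : Subgroup (Matrix.SpecialLinearGroup (Fin 2) ℝ)) : XT S →ₗ[ℝ] XT S where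
  toFun φ := XT.mk (PPl h φ.val - φ.val HPI • (1 : HP →ᵇ ℝ)) ((XS S).sub_mem (PPl_mem h φ.mem) ((XS S).smul_mem _ one_mem_XS))
  map_add' := by
    intro φ ψ
    refine XT.ext fun z => ?_
    show (PPl h (φ.val + ψ.val) - (φ.val + ψ.val) HPI • (1 : HP →ᵇ ℝ)) z =
      ((PPl h φ.val - φ.val HPI • (1 : HP →ᵇ ℝ)) + (PPl h ψ.val - ψ.val HPI • (1 : HP →ᵇ ℝ))) z
    rw [map_add]
    simp only [BoundedContinuousFunction.coe_sub, BoundedContinuousFunction.coe_add, BoundedContinuousFunction.coe_smul, Pi.sub_apply,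
      Pi.add_apply, BoundedContinuousFunction.coe_one, Pi.one_apply, smul_eq_mul, mul_one]
    ring
  map_smul' := by
    intro c φ
    refine XT.ext fun z => ?_
    show (PPl h (c • φ.val) - (c • φ.val) HPI • (1 : HP →ᵇ ℝ)) z = (c • (PPl h φ.val - φ.val HPI • (1 : HP →ᵇ ℝ))) z
    rw [map_smul]
    simp only [BoundedContinuousFunction.coe_sub, BoundedContinuousFunction.coe_smul, Pi.sub_apply,
      BoundedContinuousFunction.coe_one, Pi.one_apply, smul_eq_mul, mul_one]
    ring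

/-- The operator `φ ↦ P φ - φ(i)` on the invariant functions. -/
noncomputable def TX (h : KPair ν κ R C Λ) (S : Subgroup (Matrix.SpecialLinearGroup (Fin 2) ℝ)) : XT S →L[ℝ] XT S :=
  LinearMap.mkContinuous (TXl h S) 2
    (fun φ => by
      have h1 : ‖PPl h φ.val‖ ≤ ‖φ.val‖ :=
        (BoundedContinuousFunction.norm_le (norm_nonneg _)).2 fun z => PPf_abs_le h (exb_contOn φ.val) (exb_abs_le φ.val) z.2
      have h2 : ‖φ.val HPI • (1 : HP →ᵇ ℝ)‖ ≤ ‖φ.val‖ := by
        refine (BoundedContinuousFunction.norm_le (norm_nonneg _)).2 fun z => ?_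
        have h3 : (φ.val HPI • (1 : HP →ᵇ ℝ)) z = φ.val HPI := mul_one _
        rw [h3]
        exact φ.val.norm_coe_le_norm HPI
      calc ‖PPl h φ.val - φ.val HPI • (1 : HP →ᵇ ℝ)‖ ≤ ‖PPl h φ.val‖ + ‖φ.val HPI • (1 : HP →ᵇ ℝ)‖ := norm_sub_le _ _
        _ ≤ ‖φ.val‖ + ‖φ.val‖ := add_le_add h1 h2
        _ = 2 * ‖φ‖ := by
          rw [two_mul, XT.norm_val])

theorem TX_apply (h : KPair ν κ R C Λ) (φ : XT S) (z : HP) : (TX h S φ).val z = PPf κ (exb φ.val) z - φ.val HPI := by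
  have h1 : (TX h S φ).val z = PPl h φ.val z - φ.val HPI * (1 : HP →ᵇ ℝ) z := rfl
  rw [h1, PPl_apply]
  have h2 : (1 : HP →ᵇ ℝ) z = 1 := rfl
  rw [h2, mul_one]

end KW
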