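import Pool.Agent.Lib.MP_464db4_gt.TH.PoA

/-!
# TH-PoB1: the averages are locally equi-Lipschitz

`(wker h.profK) : WKer (kn κ) a b R _` (KW/PrB.lean, `a = lA κ`, `b = lE κ`); `cvw_hasFDerivAt` (KW/CvW.lean): the derivative of `cv (kn κ) φ` at `z` is `-(z.im⁻¹ * cv a φ z) • reCLM - (z.im⁻¹ * cv b φ z) • imCLM`
(`φ = exb φ`, continuous on `hp`: `exb_contOn`).  For `|φ| ≤ 1` on `hp`: `|cv a φ z| = |∫ φ (aff z w) a w| ≤ ∫ |a|` (`norm_integral_le_integral_norm`, `integral_mono_of_nonneg` or `norm_integral_le_of_norm_le`; `a w = 0` off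
`KR R ⊆ hp` by `WKer.a_zero`, `KR_sub`, and `aff z w ∈ hp` for `w ∈ hp`: `aff_mem`, `exb_abs_le`), the same for `b`.  With `δ = z₀.im / 2`: on the ball `Metric.ball z₀ δ` one has `z.im ≥ z₀.im / 2 > 0` (`Complex.abs_im_le_norm`), so
the norm of the derivative of `PPf κ (exb φ) = cv (kn κ) (exb φ) / ∫ kn κ` is at most `L = (2 / z₀.im) (∫ |a| + ∫ |b|) / ∫ kn κ` (`massK_pos`), and `Convex.norm_image_sub_le_of_norm_hasFDerivWithin_le` on the ball.
(Take `L` plus `1` to have it positive.)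
-/

namespace KW

open Complex MeasureTheory Set Filter Topology
open scoped ContDiff BoundedContinuousFunction

variable {ν κ : ℝ → ℝ} {R C Λ : ℝ}

private theorem PoB1_cv {g φ : ℂ → ℝ} (hg : GKer g) {M : ℝ} (hM : ∀ w ∈ hp, |φ w| ≤ M) {z : ℂ} (hz : z ∈ hp) :
    |cv g φ z| ≤ M * ∫ w, |g w| := by
  obtain ⟨R', hR', hsupp⟩ := hg.supp
  unfold cv
  rw [← integral_const_mul, ← Real.norm_eq_abs]
  refine norm_integral_le_of_norm_le (hg.int.abs.const_mul M) (Eventually.of_forall fun w => ?_)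
  by_cases hw : w ∈ KR R'
  · have hwh : w ∈ hp := KR_sub hR' hw
    rw [norm_mul, Real.norm_eq_abs, Real.norm_eq_abs]
    exact mul_le_mul_of_nonneg_right (hM _ (aff_mem hz hwh)) (abs_nonneg _)
  · rw [hsupp w hw, mul_zero, norm_zero, abs_zero, mul_zero]

private theorem PoB1_norm (x y : ℝ) : ‖x • reCLM + y • imCLM‖ ≤ |x| + |y| := by
  refine (norm_add_le _ _).trans (add_le_add ?_ ?_)
  · rw [norm_smul, Real.norm_eq_abs]
    have h : ‖reCLM‖ ≤ 1 := reCLM_norm.le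
    exact mul_le_of_le_one_right (abs_nonneg _) h
  · rw [norm_smul, Real.norm_eq_abs]
    have h : ‖imCLM‖ ≤ 1 := imCLM_norm.le
    exact mul_le_of_le_one_right (abs_nonneg _) h

theorem PPf_lip (h : KPair ν κ R C Λ) {z₀ : ℂ} (hz : z₀ ∈ hp) :
    ∃ L : ℝ, 0 < L ∧ ∃ δ : ℝ, 0 < δ ∧ Metric.ball z₀ δ ⊆ hp ∧
      ∀ φ : HP →ᵇ ℝ, ‖φ‖ ≤ 1 → ∀ z ∈ Metric.ball z₀ δ, |PPf κ (exb φ) z - PPf κ (exb φ) z₀| ≤ L * ‖z - z₀‖ := by
  have hW := wker h.profK
  have hc := massK_pos h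
  have hz0 : 0 < z₀.im := hz
  have hIa : 0 ≤ ∫ w, |lA κ w| := integral_nonneg fun w => abs_nonneg _
  have hIb : 0 ≤ ∫ w, |lE κ w| := integral_nonneg fun w => abs_nonneg _
  have him : ∀ z ∈ Metric.ball z₀ (z₀.im / 2), z₀.im / 2 ≤ z.im := by
    intro z hzb
    have h1 : ‖z - z₀‖ < z₀.im / 2 := by rwa [Metric.mem_ball, dist_eq_norm] at hzb
    have h2 : |(z - z₀).im| ≤ ‖z - z₀‖ := Complex.abs_im_le_norm _
    rw [Complex.sub_im] at h2
    have h3 := (abs_le.1 h2).1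
    linarith
  have hsub : Metric.ball z₀ (z₀.im / 2) ⊆ hp := by
    intro z hzb
    have h1 := him z hzb
    show 0 < z.im
    linarith
  refine ⟨(2 / z₀.im * ((∫ w, |lA κ w|) + ∫ w, |lE κ w|)) / (∫ w, kn κ w) + 1, by positivity, z₀.im / 2, by positivity,
    hsub, fun φ hφ z hzb => ?_⟩
  have hφ1 : ∀ w ∈ hp, |exb φ w| ≤ 1 := fun w hw => (exb_abs_le φ w hw).trans hφ
  have hcont := exb_contOn φ
  have hlip : ‖cv (kn κ) (exb φ) z - cv (kn κ) (exb φ) z₀‖ ≤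
      (2 / z₀.im * ((∫ w, |lA κ w|) + ∫ w, |lE κ w|)) * ‖z - z₀‖ := by
    refine Convex.norm_image_sub_le_of_norm_hasFDerivWithin_le (𝕜 := ℝ) (s := Metric.ball z₀ (z₀.im / 2))
      (fun y hy => (cvw_hasFDerivAt hW hcont (hsub hy)).hasFDerivWithinAt) (fun y hy => ?_)
      (convex_ball _ _) (Metric.mem_ball_self (by positivity)) hzb
    have hy0 : 0 < y.im := hsub hy
    have hyi : y.im⁻¹ ≤ 2 / z₀.im := by
      rw [inv_eq_one_div, div_le_div_iff₀ hy0 hz0]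
      linarith [him y hy]
    have hyi0 : 0 ≤ y.im⁻¹ := by positivity
    have hA := PoB1_cv hW.ga hφ1 (hsub hy)
    have hB := PoB1_cv hW.gb hφ1 (hsub hy)
    rw [one_mul] at hA hB
    refine (PoB1_norm _ _).trans ?_
    rw [abs_neg, abs_neg, abs_mul, abs_mul, abs_of_nonneg hyi0, mul_add]
    exact add_le_add (mul_le_mul hyi hA (abs_nonneg _) (by positivity)) (mul_le_mul hyi hB (abs_nonneg _) (by positivity))
  rw [Real.norm_eq_abs] at hlip
  unfold PPf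
  rw [← sub_div, abs_div, abs_of_pos hc, div_le_iff₀ hc]
  refine hlip.trans ?_
  have h1 : ((2 / z₀.im * ((∫ w, |lA κ w|) + ∫ w, |lE κ w|)) / (∫ w, kn κ w) + 1) * ‖z - z₀‖ * (∫ w, kn κ w) =
      (2 / z₀.im * ((∫ w, |lA κ w|) + ∫ w, |lE κ w|)) * ‖z - z₀‖ + ‖z - z₀‖ * ∫ w, kn κ w := by
    field_simp
  rw [h1]
  exact le_add_of_nonneg_right (by positivity)

end KW
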