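import Pool.Agent.Lib.MP_464db4_gt.TH.PoB1

/-!
# TH-PoB2: the operator `TX` is compact

Let `K'` be the compact set `K ∪ {I}` as a subtype of `ℂ` (`CompactSpace`), `K' ⊆ hp`, and `ρ : XT S → (K' →ᵇ ℝ)` the restriction (`BoundedContinuousFunction.mkOfCompact` or `compContinuous` with the inclusion `K' → HP`, continuous).
* `ρ` is linear and an isometry: `‖ρ φ‖ = ‖φ‖`: for `z : HP` there is `γ ∈ S` with `mo γ z ∈ K`, and `φ.val z = φ.val (mo γ z)` (`φ.mem γ hγ z`); so `dist (ρ φ) (ρ ψ) = dist φ ψ` (apply to `φ - ψ`), `ρ` is a closed embedding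
  (`Isometry.isClosedEmbedding`, `XT S` is complete).
* `A = {ρ (TX h S φ) | ‖φ‖ ≤ 1}` has compact closure: `BoundedContinuousFunction.arzela_ascoli` with the compact set `Metric.closedBall 0 2 ⊆ ℝ` (`|TX φ z| ≤ 2`: `TX_apply`, `PPf_abs_le`, or `ContinuousLinearMap.le_opNorm`, or the
  bound `2` of `mkContinuous`) and equicontinuity: `TX_apply`: the differences of the values at two points of `K'` are those of `PPf κ (exb φ.val)`, so `PPf_lip` gives equicontinuity at each point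
  (`Metric.equicontinuousAt_iff`; the constant `φ(i)` cancels).
* `Q = ρ ⁻¹' closure A` is compact (`IsClosedEmbedding.isCompact_preimage`) and `TX ⁻¹' Q` contains the closed unit ball, a neighbourhood of `0`: `IsCompactOperator` (definition).
-/

namespace KW

open Complex MeasureTheory Set Filter Topology
open scoped ContDiff BoundedContinuousFunction

variable {ν κ : ℝ → ℝ} {R C Λ : ℝ} {S : Subgroup (Matrix.SpecialLinearGroup (Fin 2) ℝ)}

/-- the inclusion -/
private def PoB2_inc {K : Set ℂ} (hKh : K ⊆ hp) : C(K, HP) :=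
  ⟨fun x => ⟨x.1, hKh x.2⟩, Continuous.subtype_mk continuous_subtype_val _⟩

/-- the restriction -/
private noncomputable def PoB2_res (S : Subgroup (Matrix.SpecialLinearGroup (Fin 2) ℝ)) {K : Set ℂ} (hKh : K ⊆ hp)
    (φ : XT S) : K →ᵇ ℝ :=
  φ.val.compContinuous (PoB2_inc hKh)

private theorem PoB2_res_apply {K : Set ℂ} (hKh : K ⊆ hp) (φ : XT S) (x : K) :
    PoB2_res S hKh φ x = φ.val ⟨x.1, hKh x.2⟩ := rfl

private theorem PoB2_iso {K : Set ℂ} (hKh : K ⊆ hp) (hcov : ∀ z ∈ hp, ∃ γ ∈ S, mo γ z ∈ K) :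
    Isometry (PoB2_res S hKh) := by
  refine Isometry.of_dist_eq fun φ ψ => le_antisymm ?_ ?_
  · refine (BoundedContinuousFunction.dist_le (dist_nonneg (x := φ) (y := ψ))).2 fun x => ?_
    rw [← XT.dist_val φ ψ]
    exact BoundedContinuousFunction.dist_coe_le_dist (f := φ.val) (g := ψ.val) ⟨x.1, hKh x.2⟩
  · rw [← XT.dist_val φ ψ]
    refine (BoundedContinuousFunction.dist_le (dist_nonneg (x := PoB2_res S hKh φ) (y := PoB2_res S hKh ψ))).2 fun z => ?_
    obtain ⟨γ, hγ, hm⟩ := hcov z.1 z.2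
    have h1 : φ.val z = PoB2_res S hKh φ ⟨mo γ z, hm⟩ := (φ.mem γ hγ z).symm
    have h2 : ψ.val z = PoB2_res S hKh ψ ⟨mo γ z, hm⟩ := (ψ.mem γ hγ z).symm
    rw [h1, h2]
    exact BoundedContinuousFunction.dist_coe_le_dist _

theorem TX_compact (h : KPair ν κ R C Λ) {K : Set ℂ} (hK : IsCompact K) (hKh : K ⊆ hp) (hcov : ∀ z ∈ hp, ∃ γ ∈ S, mo γ z ∈ K) :
    IsCompactOperator (TX h S) := by
  have : CompactSpace K := isCompact_iff_compactSpace.1 hK
  have hiso := PoB2_iso (S := S) hKh hcov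
  have hcl := hiso.isClosedEmbedding
  set A : Set (K →ᵇ ℝ) := (fun φ => PoB2_res S hKh (TX h S φ)) '' Metric.closedBall 0 1 with hA
  have hval : ∀ φ : XT S, φ ∈ Metric.closedBall (0 : XT S) 1 → ‖φ.val‖ ≤ 1 := by
    intro φ hφ
    rw [Metric.mem_closedBall, dist_zero_right] at hφ
    rw [XT.norm_val]
    exact hφ
  have hcomp : IsCompact (closure A) := by
    refine BoundedContinuousFunction.arzela_ascoli (Metric.closedBall (0 : ℝ) 2) (isCompact_closedBall _ _) A ?_ ?_
    · rintro f x ⟨φ, hφ, rfl⟩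
      have h1 := hval φ hφ
      show PoB2_res S hKh (TX h S φ) x ∈ Metric.closedBall (0 : ℝ) 2
      rw [PoB2_res_apply, TX_apply, Metric.mem_closedBall, dist_zero_right, Real.norm_eq_abs]
      have h2 : |PPf κ (exb φ.val) x.1| ≤ 1 :=
        PPf_abs_le h (exb_contOn φ.val) (fun w hw => (exb_abs_le φ.val w hw).trans h1) (hKh x.2)
      have h3 : |φ.val HPI| ≤ 1 := (φ.val.norm_coe_le_norm HPI).trans h1
      have h4 := abs_sub (PPf κ (exb φ.val) x.1) (φ.val HPI)
      show |PPf κ (exb φ.val) x.1 - φ.val HPI| ≤ 2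
      linarith
    · intro x0
      rw [Metric.equicontinuousAt_iff]
      intro ε hε
      obtain ⟨L, hL, δ, hδ, hball, hlip⟩ := PPf_lip h (hKh x0.2)
      refine ⟨min δ (ε / L), lt_min hδ (by positivity), ?_⟩
      rintro x hx ⟨f, φ, hφ, rfl⟩
      have h1 := hval φ hφ
      have hx1 : dist x.1 x0.1 < δ := lt_of_lt_of_le hx (min_le_left _ _)
      have hx2 : dist x.1 x0.1 < ε / L := lt_of_lt_of_le hx (min_le_right _ _)
      have h2 := hlip φ.val h1 x.1 hx1
      show dist (PoB2_res S hKh (TX h S φ) x0) (PoB2_res S hKh (TX h S φ) x) < ε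
      rw [PoB2_res_apply, PoB2_res_apply, TX_apply, TX_apply, dist_comm, Real.dist_eq]
      have h3 : PPf κ (exb φ.val) x.1 - φ.val HPI - (PPf κ (exb φ.val) x0.1 - φ.val HPI) =
          PPf κ (exb φ.val) x.1 - PPf κ (exb φ.val) x0.1 := by ring
      show |PPf κ (exb φ.val) x.1 - φ.val HPI - (PPf κ (exb φ.val) x0.1 - φ.val HPI)| < ε
      rw [h3]
      refine lt_of_le_of_lt h2 ?_
      rw [← dist_eq_norm]
      rw [lt_div_iff₀ hL] at hx2
      linarith
  refine ⟨PoB2_res S hKh ⁻¹' closure A, hcl.isCompact_preimage hcomp, ?_⟩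
  refine Filter.mem_of_superset (Metric.closedBall_mem_nhds (0 : XT S) one_pos) ?_
  intro φ hφ
  exact subset_closure ⟨φ, hφ, rfl⟩

end KW
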