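import Pool.Agent.Lib.MP_464db4_gt.TH.PoA

/-!
# TH-SmpC: the strong maximum principle for continuous functions which are at most equal to their averages
-/

namespace KW

open Complex MeasureTheory Set Filter Topology
open scoped ContDiff

variable {ν κ : ℝ → ℝ} {R C Λ : ℝ}

private theorem SmpC_off {κ : ℝ → ℝ} {w : ℂ} (hw : w ∉ hp) : kn κ w = 0 := by
  unfold kn
  rw [ex_of_not_mem hw]

private theorem SmpC_ae (h : KPair ν κ R C Λ) {φ : ℂ → ℝ} (hφ : ContinuousOn φ hp) (hP : ∀ z ∈ hp, φ z ≤ PPf κ φ z) {M : ℝ} (hM : ∀ z ∈ hp, φ z ≤ M)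
    {z : ℂ} (hz : z ∈ hp) (h0 : φ z = M) :
    (fun w => (M - φ (aff z w)) * kn κ w) =ᵐ[volume] 0 := by
  have hgK := gker_kn h.profK
  have hi1 := cv_integrable hgK hφ hz
  have hi2 : Integrable (fun w => (M - φ (aff z w)) * kn κ w) := by
    have h1 := (hgK.int.const_mul M).sub hi1
    refine h1.congr (Eventually.of_forall fun w => ?_)
    show M * kn κ w - φ (aff z w) * kn κ w = (M - φ (aff z w)) * kn κ w
    ring
  have hnn : ∀ w, 0 ≤ (M - φ (aff z w)) * kn κ w := by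
    intro w
    by_cases hw : w ∈ hp
    · exact mul_nonneg (sub_nonneg.2 (hM _ (aff_mem hz hw))) (kn_nonneg h.nonnegK w)
    · rw [SmpC_off hw, mul_zero]
  have he : ∫ w, (M - φ (aff z w)) * kn κ w = M * (∫ w, kn κ w) - cv (kn κ) φ z := by
    unfold cv
    rw [← integral_const_mul, ← integral_sub (hgK.int.const_mul M) hi1]
    congr 1
    funext w
    ring
  have hc := massK_pos h
  have hP' := hP z hz
  unfold PPf at hP'
  rw [le_div_iff₀ hc, h0] at hP'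
  have hle : ∫ w, (M - φ (aff z w)) * kn κ w = 0 := by
    refine le_antisymm ?_ (integral_nonneg hnn)
    rw [he]
    linarith
  exact (integral_eq_zero_iff_of_nonneg hnn hi2).1 hle

private theorem SmpC_local (h : KPair ν κ R C Λ) {φ : ℂ → ℝ} (hφ : ContinuousOn φ hp) (hP : ∀ z ∈ hp, φ z ≤ PPf κ φ z) {M : ℝ} (hM : ∀ z ∈ hp, φ z ≤ M)
    {z : ℂ} (hz : z ∈ hp) (h0 : φ z = M) : ∀ᶠ w in 𝓝 z, φ w = M := by
  have hae := SmpC_ae h hφ hP hM hz h0
  obtain ⟨r, hr, hpos⟩ := h.posK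
  have hqc : ContinuousOn qq hp := qq_contDiffOn.continuousOn
  have hcont : ContinuousOn (fun w => φ (aff z w)) hp :=
    hφ.comp ((continuous_aff.comp (continuous_const.prodMk continuous_id)).continuousOn) fun w hw => aff_mem hz hw
  have hO1 : IsOpen (hp ∩ qq ⁻¹' (Ioo 0 r)) := hqc.isOpen_inter_preimage isOpen_hp isOpen_Ioo
  have hO2 : IsOpen (hp ∩ (fun w => φ (aff z w)) ⁻¹' (Iio M)) := hcont.isOpen_inter_preimage isOpen_hp isOpen_Iio
  have hO := hO1.inter hO2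
  have hnull : volume ((hp ∩ qq ⁻¹' (Ioo 0 r)) ∩ (hp ∩ (fun w => φ (aff z w)) ⁻¹' (Iio M))) = 0 := by
    refine measure_mono_null (fun w hw => ?_) (ae_iff.1 hae)
    obtain ⟨⟨hw1, hw2⟩, -, hw3⟩ := hw
    have e1 : 0 < kn κ w := by
      rw [kn_eq hw1]
      exact div_pos (hpos _ hw2.1 hw2.2) (pow_pos hw1 2)
    have e2 : 0 < M - φ (aff z w) := sub_pos.2 hw3
    exact (mul_pos e2 e1).ne'
  rw [hO.measure_eq_zero_iff (μ := (volume : Measure ℂ))] at hnull
  have hall : ∀ w ∈ hp, 0 < qq w → qq w < r → φ (aff z w) = M := by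
    intro w hw h1 h2
    refine le_antisymm (hM _ (aff_mem hz hw)) (not_lt.1 fun h3 => ?_)
    have : w ∈ (hp ∩ qq ⁻¹' (Ioo 0 r)) ∩ (hp ∩ (fun w => φ (aff z w)) ⁻¹' (Iio M)) := ⟨⟨hw, h1, h2⟩, hw, h3⟩
    rw [hnull] at this
    exact this
  have hI : (I : ℂ) ∈ hp := by
    rw [mem_hp, I_im]
    exact one_pos
  have hqI : qq I = 0 := by
    rw [qq_norm hI]
    simp
  have hnear : ∀ᶠ w in 𝓝 I, φ (aff z w) = M := by
    have h1 : ∀ᶠ w in 𝓝 I, qq w < r := by
      have hc : ContinuousAt qq I := hqc.continuousAt (isOpen_hp.mem_nhds hI)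
      exact hc.eventually_lt_const (by rw [hqI]; exact hr)
    filter_upwards [h1, isOpen_hp.mem_nhds hI] with w hw1 hw2
    by_cases hw : w = I
    · rw [hw, aff_I, h0]
    · exact hall w hw2 (qq_pos hw2 hw) hw1
  have hzi : (z.im : ℂ) ≠ 0 := by
    have h1 : 0 < z.im := hz
    exact_mod_cast h1.ne'
  have hg : Tendsto (fun w : ℂ => (w - (z.re : ℂ)) / (z.im : ℂ)) (𝓝 z) (𝓝 I) := by
    have h1 : Continuous (fun w : ℂ => (w - (z.re : ℂ)) / (z.im : ℂ)) := (continuous_id.sub continuous_const).div_const _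
    have h2 := h1.tendsto z
    have h3 : (z - (z.re : ℂ)) / (z.im : ℂ) = I := by
      rw [div_eq_iff hzi]
      have h4 := Complex.re_add_im z
      linear_combination h4.symm
    simp only [h3] at h2
    exact h2
  filter_upwards [hg.eventually hnear] with w hw
  have h5 : aff z ((w - (z.re : ℂ)) / (z.im : ℂ)) = w := by
    unfold aff
    rw [mul_div_cancel₀ _ hzi]
    ring
  rwa [h5] at hw

theorem smpC (h : KPair ν κ R C Λ) {φ : ℂ → ℝ} (hφ : ContinuousOn φ hp) (hP : ∀ z ∈ hp, φ z ≤ PPf κ φ z) {M : ℝ} (hM : ∀ z ∈ hp, φ z ≤ M) {z₀ : ℂ} (hz : z₀ ∈ hp)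
    (h0 : φ z₀ = M) : ∀ z ∈ hp, φ z = M := by
  have hu : IsOpen (hp ∩ {w | φ w = M}) := by
    rw [isOpen_iff_mem_nhds]
    rintro w ⟨hw1, hw2⟩
    exact inter_mem (isOpen_hp.mem_nhds hw1) (SmpC_local h hφ hP hM hw1 hw2)
  have hv : IsOpen (hp ∩ φ ⁻¹' (Iio M)) := hφ.isOpen_inter_preimage isOpen_hp isOpen_Iio
  have hd : Disjoint (hp ∩ {w | φ w = M}) (hp ∩ φ ⁻¹' (Iio M)) := by
    rw [Set.disjoint_left]
    rintro w ⟨-, hw1⟩ ⟨-, hw2⟩
    have h1 : φ w = M := hw1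
    have h2 : φ w < M := hw2
    exact absurd h1 h2.ne
  have hc : hp ⊆ (hp ∩ {w | φ w = M}) ∪ (hp ∩ φ ⁻¹' (Iio M)) := by
    intro w hw
    rcases (hM w hw).lt_or_eq with h1 | h1
    · exact Or.inr ⟨hw, h1⟩
    · exact Or.inl ⟨hw, h1⟩
  have hpre : IsPreconnected hp := (convex_halfSpace_im_gt 0).isPreconnected
  have hsub := IsPreconnected.subset_left_of_subset_union hu hv hd hc ⟨z₀, hz, hz, h0⟩ hpre
  exact fun z hz => (hsub hz).2

end KW
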