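import Pool.Agent.Lib.MP_464db4_gt.TH.PoB2
import Pool.Agent.Lib.MP_464db4_gt.TH.SmpC

/-!
# TH-PoC: `1` is not an eigenvalue of `TX`, and the Fredholm alternative
-/

namespace KW

open Complex MeasureTheory Set Filter Topology
open scoped ContDiff BoundedContinuousFunction

variable {ν κ : ℝ → ℝ} {R C Λ : ℝ} {S : Subgroup (Matrix.SpecialLinearGroup (Fin 2) ℝ)}

private theorem PoC_inv (φ : XT S) {γ : Matrix.SpecialLinearGroup (Fin 2) ℝ} (hγ : γ ∈ S) {z : ℂ} (hz : z ∈ hp) :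
    exb φ.val (mo γ z) = exb φ.val z := by
  rw [exb_of_mem _ hz, exb_of_mem _ (mo_mem γ hz)]
  exact φ.mem γ hγ ⟨z, hz⟩

private theorem PoC_le (h : KPair ν κ R C Λ) {f : ℂ → ℝ} (hf : ContinuousOn f hp) {M : ℝ} (hM : ∀ z ∈ hp, f z ≤ M) {z : ℂ} (hz : z ∈ hp) : PPf κ f z ≤ M := by
  have h1 := cv_mono (gker_kn h.profK) (kn_nonneg h.nonnegK) hf (ψ := fun _ => M) continuousOn_const hM hz
  rw [cv_const] at h1
  unfold PPf
  rw [div_le_iff₀ (massK_pos h)]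
  exact h1

private theorem PoC_ge (h : KPair ν κ R C Λ) {f : ℂ → ℝ} (hf : ContinuousOn f hp) {M : ℝ} (hM : ∀ z ∈ hp, M ≤ f z) {z : ℂ} (hz : z ∈ hp) : M ≤ PPf κ f z := by
  have h1 := cv_mono (gker_kn h.profK) (kn_nonneg h.nonnegK) (φ := fun _ => M) continuousOn_const hf hM hz
  rw [cv_const] at h1
  unfold PPf
  rw [le_div_iff₀ (massK_pos h)]
  exact h1

theorem TX_inj (h : KPair ν κ R C Λ) {K : Set ℂ} (hK : IsCompact K) (hKh : K ⊆ hp) (hcov : ∀ z ∈ hp, ∃ γ ∈ S, mo γ z ∈ K) {φ : XT S}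
    (hφ : TX h S φ = φ) : φ = 0 := by
  have hf : ContinuousOn (exb φ.val) hp := exb_contOn φ.val
  have hKne : K.Nonempty := by
    obtain ⟨γ, -, hγ⟩ := hcov I I_mem_hp
    exact ⟨_, hγ⟩
  obtain ⟨p, hpK, hp⟩ := hK.exists_isMaxOn hKne (hf.mono hKh)
  obtain ⟨q, hqK, hq⟩ := hK.exists_isMinOn hKne (hf.mono hKh)
  have hmax : ∀ z ∈ KW.hp, exb φ.val z ≤ exb φ.val p := by
    intro z hz
    obtain ⟨γ, hγ, hγK⟩ := hcov z hz
    rw [← PoC_inv φ hγ hz]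
    exact hp hγK
  have hmin : ∀ z ∈ KW.hp, exb φ.val q ≤ exb φ.val z := by
    intro z hz
    obtain ⟨γ, hγ, hγK⟩ := hcov z hz
    rw [← PoC_inv φ hγ hz]
    exact hq hγK
  have heq : ∀ z ∈ KW.hp, exb φ.val z = PPf κ (exb φ.val) z - exb φ.val I := by
    intro z hz
    have h1 := TX_apply h φ ⟨z, hz⟩
    rw [hφ] at h1
    rw [exb_of_mem _ hz, h1, exb_of_mem _ I_mem_hp]
    rfl
  have h1 := PoC_le h hf hmax (hKh hpK)
  have h2 := PoC_ge h hf hmin (hKh hqK)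
  have h3 := heq p (hKh hpK)
  have h4 := heq q (hKh hqK)
  have h5 : exb φ.val I = 0 := le_antisymm (by linarith) (by linarith)
  have h6 : ∀ z ∈ KW.hp, exb φ.val z ≤ PPf κ (exb φ.val) z := by
    intro z hz
    have := heq z hz
    rw [h5, sub_zero] at this
    exact this.le
  have h7 := smpC h hf h6 hmax (hKh hpK) rfl
  refine XT.ext fun z => ?_
  have h8 := h7 z.1 z.2
  have h9 := h7 I I_mem_hp
  rw [exb_of_mem _ z.2] at h8
  show φ.val z = 0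
  rw [← h5, h9, ← h8]

theorem poisson_P (h : KPair ν κ R C Λ) {K : Set ℂ} (hK : IsCompact K) (hKh : K ⊆ hp) (hcov : ∀ z ∈ hp, ∃ γ ∈ S, mo γ z ∈ K) (φ : XT S) :
    ∃ (ψ : XT S) (m : ℝ), ∀ z : HP, ψ.val z - PPf κ (exb ψ.val) z = φ.val z - m := by
  have hc := TX_compact h hK hKh hcov
  rcases IsCompactOperator.hasEigenvalue_or_mem_resolventSet (T := TX h S) (μ := 1) hc one_ne_zero with h2 | h2
  · exfalso
    obtain ⟨v, hv⟩ := h2.exists_hasEigenvector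
    have h3 : TX h S v = (1 : ℝ) • v := hv.apply_eq_smul
    rw [one_smul] at h3
    exact hv.2 (TX_inj h hK hKh hcov h3)
  · have h3 : IsUnit (algebraMap ℝ (XT S →L[ℝ] XT S) 1 - TX h S) := h2
    obtain ⟨U, hU⟩ := h3
    refine ⟨(↑U⁻¹ : XT S →L[ℝ] XT S) φ, ((↑U⁻¹ : XT S →L[ℝ] XT S) φ).val HPI, fun z => ?_⟩
    have h4 : (U : XT S →L[ℝ] XT S) ((↑U⁻¹ : XT S →L[ℝ] XT S) φ) = φ := by
      have h5 : ((U : XT S →L[ℝ] XT S) * (↑U⁻¹ : XT S →L[ℝ] XT S)) φ = φ := by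
        rw [U.mul_inv]
        rfl
      exact h5
    generalize (↑U⁻¹ : XT S →L[ℝ] XT S) φ = ψ at h4 ⊢
    rw [hU, map_one] at h4
    have h5 : ψ - TX h S ψ = φ := h4
    have h6 : ψ.val z - (TX h S ψ).val z = φ.val z := by
      rw [← h5]
      rfl
    rw [TX_apply] at h6
    linarith

end KW
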