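import Pool.Agent.Lib.MP_464db4_gt.TH.PoC

/-!
# TH-PoD: the Poisson equation for smooth functions invariant under `S`

`exists_kpair 1` gives `h : KPair ν κ R C 1`, `c = ∫ kn κ > 0`, `c' = ∫ kn ν > 0` (`massK_pos`, `massN_pos`).  `φ` is bounded on `hp` (`|φ| ≤ V` on the compact set `K`, invariance).
* `Φ z = -(cv (kn ν) φ z)/c` is continuous (`cv_continuousOn`), bounded (`cv_abs_le`), invariant (`cv_mo`, `cv_congr`, as in `PPl_mem`): an element of `XT S` (`XT.mk`, `BoundedContinuousFunction.ofNormedAddCommGroup`).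
* `poisson_P h hK hKh hcov Φ` gives `ψ₀`, `m₁`; `ψ = exb ψ₀.val` is continuous on `hp`, invariant, and `ψ = PPf κ ψ + Φ - m₁` on `hp` (`exb_of_mem`).
* smoothness: by induction on `k`, `ContDiffOn ℝ k ψ hp`, as `fixed_smooth` (KW/Reg.lean): `gain (wker h.profK) k`, `gain (wker h.profN) k`; `contDiffOn_infty`.
* `id1 h` (with `ContDiffOn ℝ 2`): `cv (kn ν) (lapH ψ) z = cv (kn κ) ψ z - c ψ z = -c (ψ z - PPf κ ψ z) = -c (Φ z - m₁) = cv (kn ν) φ z + c m₁`.  With `m = -c m₁ / c'` and `cv (kn ν) (fun _ => m) z = m c'` (`cv_const`):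
  `cv (kn ν) (fun w => lapH ψ w - (φ w - m)) z = 0` for `z ∈ hp` (`cv_sub`, continuity: `lapH_contDiffOn`).
* `v = lapH ψ - (φ - m)` is smooth, invariant (`lapH_mo`, `lapH_congr_hp`, as in `fixed_eq`), so bounded, so `v = 0` on `hp` by `zero_of_bdd h (m := 1) one_pos le_rfl`.
-/

namespace KW

open Complex MeasureTheory Set Filter Topology
open scoped ContDiff BoundedContinuousFunction

variable {S : Subgroup (Matrix.SpecialLinearGroup (Fin 2) ℝ)}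

private theorem PoD_smooth {ν κ : ℝ → ℝ} {R C Λ : ℝ} (h : KPair ν κ R C Λ) {φ ψ : ℂ → ℝ} (hφ : ContDiffOn ℝ ∞ φ hp) (hψ : ContinuousOn ψ hp) {m₁ : ℝ}
    (hfix : ∀ z ∈ hp, ψ z = (cv (kn κ) ψ z - cv (kn ν) φ z) / (∫ w, kn κ w) - m₁) : ContDiffOn ℝ ∞ ψ hp := by
  rw [contDiffOn_infty]
  intro k
  induction k with
  | zero =>
    have h0 : ContDiffOn ℝ 0 ψ hp := contDiffOn_zero.2 hψ
    exact_mod_cast h0
  | succ k ih =>
    have h2 := gain (wker h.profK) k ih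
    have h3 := gain (wker h.profN) k (contDiffOn_infty.1 hφ k)
    have h4 : ContDiffOn ℝ (k + 1 : ℕ) (fun z => (cv (kn κ) ψ z - cv (kn ν) φ z) / (∫ w, kn κ w) - m₁) hp :=
      ((h2.sub h3).div_const (∫ w, kn κ w)).sub contDiffOn_const
    exact h4.congr fun z hz => hfix z hz

private theorem PoD_bdd {K : Set ℂ} (hK : IsCompact K) (hKh : K ⊆ hp) (hcov : ∀ z ∈ hp, ∃ γ ∈ S, mo γ z ∈ K) {φ : ℂ → ℝ}
    (hφ : ContinuousOn φ hp) (hi : ∀ γ ∈ S, ∀ w ∈ hp, φ (mo γ w) = φ w) : ∃ V : ℝ, ∀ w ∈ hp, |φ w| ≤ V := by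
  obtain ⟨V, hV⟩ := hK.exists_bound_of_continuousOn (hφ.mono hKh)
  refine ⟨V, fun w hw => ?_⟩
  obtain ⟨γ, hγ, hγK⟩ := hcov w hw
  have e := hV _ hγK
  rw [Real.norm_eq_abs, hi γ hγ w hw] at e
  exact e

/-- The Poisson equation for functions invariant under a subgroup of `SL(2,ℝ)` which has a compact set of representatives. -/
theorem poisson {K : Set ℂ} (hK : IsCompact K) (hKh : K ⊆ hp) (hcov : ∀ z ∈ hp, ∃ γ ∈ S, mo γ z ∈ K) {φ : ℂ → ℝ} (hφ : ContDiffOn ℝ ∞ φ hp)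
    (hi : ∀ γ ∈ S, ∀ w ∈ hp, φ (mo γ w) = φ w) :
    ∃ (ψ : ℂ → ℝ) (m : ℝ), ContDiffOn ℝ ∞ ψ hp ∧ (∀ γ ∈ S, ∀ w ∈ hp, ψ (mo γ w) = ψ w) ∧ ∀ z ∈ hp, lapH ψ z = φ z - m := by
  obtain ⟨ν, κ, R, C, h⟩ := exists_kpair 1
  have hc := massK_pos h
  have hc' := massN_pos h
  have hgN := gker_kn h.profN
  have hφc : ContinuousOn φ hp := hφ.continuousOn
  obtain ⟨V, hV⟩ := PoD_bdd hK hKh hcov hφc hi
  have hΦc : ContinuousOn (fun z => -(cv (kn ν) φ z) / ∫ w, kn κ w) hp := (cv_continuousOn hgN hφc).neg.div_const _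
  have hΦb : ∀ z ∈ hp, |-(cv (kn ν) φ z) / ∫ w, kn κ w| ≤ (V * ∫ w, kn ν w) / ∫ w, kn κ w := by
    intro z hz
    rw [abs_div, abs_neg, abs_of_pos hc]
    exact div_le_div_of_nonneg_right (cv_abs_le hgN (kn_nonneg h.nonneg) hφc hV hz) hc.le
  obtain ⟨Φ, hΦ⟩ : ∃ Φ : HP →ᵇ ℝ, ∀ z : HP, Φ z = -(cv (kn ν) φ z) / ∫ w, kn κ w :=
    ⟨BoundedContinuousFunction.ofNormedAddCommGroup (fun z : HP => -(cv (kn ν) φ z) / ∫ w, kn κ w)
      (continuousOn_iff_continuous_domRestrict.1 hΦc) ((V * ∫ w, kn ν w) / ∫ w, kn κ w) (fun z => hΦb z z.2), fun z => rfl⟩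
  have hΦS : Φ ∈ XS S := by
    intro γ hγ z
    rw [hΦ, hΦ]
    show -(cv (kn ν) φ (mo γ z)) / _ = _
    rw [← cv_mo γ ν φ z.2]
    congr 2
    exact cv_congr hgN (fun w hw => hi γ hγ w hw) z.2
  obtain ⟨ψ₀, m₁, hψ₀⟩ := poisson_P h hK hKh hcov (XT.mk Φ hΦS)
  have hψc : ContinuousOn (exb ψ₀.val) hp := exb_contOn ψ₀.val
  have hfix : ∀ z ∈ hp, exb ψ₀.val z = (cv (kn κ) (exb ψ₀.val) z - cv (kn ν) φ z) / (∫ w, kn κ w) - m₁ := by
    intro z hz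
    have e1 := hψ₀ ⟨z, hz⟩
    rw [XT.val_mk, hΦ] at e1
    rw [exb_of_mem _ hz]
    have e2 : PPf κ (exb ψ₀.val) z = cv (kn κ) (exb ψ₀.val) z / ∫ w, kn κ w := rfl
    have e3 : ψ₀.val ⟨z, hz⟩ - PPf κ (exb ψ₀.val) z = -(cv (kn ν) φ z) / (∫ w, kn κ w) - m₁ := e1
    rw [e2] at e3
    rw [sub_div]
    have e4 : -(cv (kn ν) φ z) / (∫ w, kn κ w) = -(cv (kn ν) φ z / ∫ w, kn κ w) := neg_div _ _
    rw [e4] at e3
    linarith
  have hψs := PoD_smooth h hφ hψc hfix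
  have hψi : ∀ γ ∈ S, ∀ w ∈ hp, exb ψ₀.val (mo γ w) = exb ψ₀.val w := by
    intro γ hγ w hw
    rw [exb_of_mem _ hw, exb_of_mem _ (mo_mem γ hw)]
    exact ψ₀.mem γ hγ ⟨w, hw⟩
  generalize exb ψ₀.val = ψ at hψc hfix hψs hψi
  clear hψ₀ hΦS hΦ hΦb hΦc
  have hψ2 : ContDiffOn ℝ 2 ψ hp := by
    have := contDiffOn_infty.1 hψs 2
    exact_mod_cast this
  refine ⟨ψ, -((∫ w, kn κ w) * m₁) / ∫ w, kn ν w, hψs, hψi, ?_⟩
  obtain ⟨m, hm⟩ : ∃ m, m = -((∫ w, kn κ w) * m₁) / ∫ w, kn ν w := ⟨_, rfl⟩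
  rw [← hm]
  have hmc : m * ∫ w, kn ν w = -((∫ w, kn κ w) * m₁) := by
    rw [hm]
    exact div_mul_cancel₀ _ hc'.ne'
  have hls := lapH_contDiffOn hψs
  have hes : ContDiffOn ℝ ∞ (fun w => φ w - m) hp := hφ.sub contDiffOn_const
  have hvs : ContDiffOn ℝ ∞ (fun w => lapH ψ w - (φ w - m)) hp := hls.sub hes
  have hinv : ∀ γ ∈ S, ∀ w ∈ hp, (lapH ψ (mo γ w) - (φ (mo γ w) - m)) = lapH ψ w - (φ w - m) := by
    intro γ hγ w hw
    rw [hi γ hγ w hw, ← lapH_mo γ hψs hw, lapH_congr_hp (ψ := ψ) (fun w hw => hψi γ hγ w hw) hw]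
  obtain ⟨W, hW⟩ := PoD_bdd hK hKh hcov hvs.continuousOn hinv
  have hz0 : ∀ z ∈ hp, cv (kn ν) (fun w => lapH ψ w - (φ w - m)) z = 0 := by
    intro z hz
    rw [cv_sub hgN hls.continuousOn hes.continuousOn hz, cv_sub hgN hφc continuousOn_const hz, cv_const, hmc]
    have e1 := id1 h hψ2 hz
    have e2 : cv (kn ν) (lapH ψ) z = cv (kn ν) (fun w => lapH ψ w) z := rfl
    have e3 := hfix z hz
    have e4 : (∫ w, kn κ w) * ψ z = cv (kn κ) ψ z - cv (kn ν) φ z - (∫ w, kn κ w) * m₁ := by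
      rw [e3, mul_sub, mul_div_cancel₀ _ hc.ne']
    rw [← e2, e1, e4]
    ring
  intro z hz
  have e := zero_of_bdd h (m := 1) one_pos le_rfl hvs hW hz0 z hz
  linarith

end KW
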