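import Pool.Agent.Lib.MP_464db4_gt.TH.Asm
import Pool.Agent.Lib.MP_464db4_gt.TR.Res

/-!
# TH-Res: torus families over compact quotients of products of upper half planes
-/

namespace TRed

open Complex Matrix MeasureTheory YT
open scoped ContDiff ComplexConjugate ComplexOrder

variable {ι κ : Type} [Fintype ι] [DecidableEq ι] [Fintype κ] [DecidableEq κ] {G : Type} [Group G] {pr : ι → G →* Matrix.SpecialLinearGroup (Fin 2) ℝ}
  {g gm : (ι ⊕ κ → ℂ) → Matrix (ι ⊕ κ) (ι ⊕ κ) ℂ} {c : ι → ℝ}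

theorem wpf_eq_ldm {D : Set (ι → ℂ)} {f : G → (ι → ℂ) → (ι → ℂ)} {T : TorusFamily κ D f} (hD : IsOpen D) (hg : IsKahler (tot κ D) T.total gm) (hf : FibreFlat T gm)
    {b : ι → ℂ} (hb : b ∈ D) (i j : ι) : wpf T b i j = dz i (fun y => dzbar j (ldm (hv gm)) y) b :=
  (wp_eq hD hg hf hb i j).symm

/-- Rigidity: the twisting form of the family is a sum of forms in one variable. -/
theorem wpf_split (hB : CompactBase (Hr ι) (mobr pr)) (T : TorusFamily κ (Hr ι) (mobr pr)) (hg : IsKahler (tot κ (Hr ι)) T.total g) :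
    (∀ b ∈ Hr ι, ∀ i j, i ≠ j → wpf T b i j = 0) ∧ ∀ i, ∀ b ∈ Hr ι, ∀ b' ∈ Hr ι, b i = b' i → wpf T b i i = wpf T b' i i := by
  obtain ⟨gm, hgm, hf, -⟩ := exists_flat hB T hg
  refine ⟨fun b hb i j hij => ?_, fun i b hb b' hb' h => ?_⟩
  · rw [wpf_eq_ldm hB.isOpen hgm hf hb]
    exact rig_off hB hgm hf hb hij
  · rw [wpf_eq_ldm hB.isOpen hgm hf hb, wpf_eq_ldm hB.isOpen hgm hf hb']
    have h1 := rig_FF hB hgm hf i b hb b' hb' h
    unfold FF at h1
    rw [h] at h1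
    have h2 : (0 : ℝ) < (b' i).im ^ 2 := pow_pos (hb' i) 2
    apply Complex.ext
    · exact mul_left_cancel₀ h2.ne' h1
    · rw [(ww_real hgm hf hb i).2, (ww_real hgm hf hb' i).2]

/-- If every Kaehler class of the base contains a form `∑ c_i ω_i` then every Kaehler class of the total space contains a form of constant scalar curvature. -/
theorem every_class (hB : CompactBase (Hr ι) (mobr pr))
    (T : TorusFamily κ (Hr ι) (mobr pr))
    (hall : ∀ β, IsKahler (Hr ι) (Set.range (mobr pr)) β → ∃ c : ι → ℝ, (∀ i, 0 < c i) ∧ Cohomologous (Hr ι) (Set.range (mobr pr)) β (poin c)) :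
    EveryClassCscK (tot κ (Hr ι)) T.total := by
  intro g hg
  obtain ⟨gm, hgm, hf, hcoh⟩ := exists_flat hB T hg
  obtain ⟨c, hc, hc'⟩ := hall _ (sch_isKahler hB hgm hf)
  obtain ⟨g', h1, -, h3, r, -, h4⟩ := asm_main hB hgm hf hcoh hc hc'
  exact ⟨g', h1, h3, -r, h4⟩

end TRed
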