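import Pool.Agent.Lib.MP_464db4_gt.TH.BochB
import Pool.Agent.Lib.MP_464db4_gt.TH.InvB
import Pool.Agent.Lib.MP_464db4_gt.TH.Leaf

/-!
# TH-Rig: the second derivatives of `log det h`

`w_ij = dz i (dzbar j (ldm (hv gm)))`, `w_ii = nnB T i` on `Hr ι` (`ww_tr`), which is `≥ 0` (`tr_B`, `rel_B`), `FF gm i b = y_i² re w_ii`.
* `rig_FF`: `leaf` for `FF gm i`: for `j ≠ i`: `FF gm i (update q j t) = (q i).im² * re (nnB T i (update q j t))` and `slice_lap` for the real function `φ = re (nnB T i ·)` (the function `nnB T i` is real on `Hr ι` by `tr_B`):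
  `lapE (t ↦ FF gm i (update q j t)) t = (q i).im² * 4 * re (dz j (dzbar j (nnB T i)) (update q j t)) ≥ 0` (`nnB_sub`).
* `rig_ww`: `w_ii(b) = w_ii(b')` if `b i = b' i` (`rig_FF`, both are real, `(b i).im > 0`).
* `rig_off`: for `i ≠ j`: `nnB T i` is constant in the direction `b_j`, so `dz j (dzbar j (nnB T i)) b = 0` (`slice_lap` again: `lapE` of a constant function is `0`; congruence on the open set), so `B_i * mconj B_j = 0` (`nnB_eq`) and
  `w_ij = trace (B_i * mconj B_j) = 0` (`ww_tr`).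
-/

namespace TRed

open Complex Matrix MeasureTheory YT
open scoped ContDiff ComplexConjugate ComplexOrder

variable {ι κ : Type} [Fintype ι] [DecidableEq ι] [Fintype κ] [DecidableEq κ] {G : Type} [Group G] {pr : ι → G →* Matrix.SpecialLinearGroup (Fin 2) ℝ}
  {T : TorusFamily κ (Hr ι) (mobr pr)} {gm : (ι ⊕ κ → ℂ) → Matrix (ι ⊕ κ) (ι ⊕ κ) ℂ} {b b' : ι → ℂ}

private theorem rig_dxc {φ ψ : ℂ → ℝ} {c : ℝ} (h : ∀ w ∈ KW.hp, φ w = c * ψ w) {t : ℂ} (ht : t ∈ KW.hp) :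
    KW.dx φ t = c * KW.dx ψ t := by
  rw [KW.dx_congr_hp h ht]
  unfold KW.dx
  have h1 := fderiv_const_smul_field (𝕜 := ℝ) (f := ψ) c
  have h2 : (fun w => c * ψ w) = c • ψ := rfl
  rw [h2, h1]
  rfl

private theorem rig_dyc {φ ψ : ℂ → ℝ} {c : ℝ} (h : ∀ w ∈ KW.hp, φ w = c * ψ w) {t : ℂ} (ht : t ∈ KW.hp) :
    KW.dy φ t = c * KW.dy ψ t := by
  rw [KW.dy_congr_hp h ht]
  unfold KW.dy
  have h1 := fderiv_const_smul_field (𝕜 := ℝ) (f := ψ) c
  have h2 : (fun w => c * ψ w) = c • ψ := rfl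
  rw [h2, h1]
  rfl

private theorem rig_lapc {φ ψ : ℂ → ℝ} {c : ℝ} (h : ∀ w ∈ KW.hp, φ w = c * ψ w) {t : ℂ} (ht : t ∈ KW.hp) :
    KW.lapE φ t = c * KW.lapE ψ t := by
  unfold KW.lapE
  rw [rig_dxc (fun w hw => rig_dxc h hw) ht, rig_dyc (fun w hw => rig_dyc h hw) ht, mul_add]

private theorem rig_lap0 {φ : ℂ → ℝ} {c : ℝ} (h : ∀ w ∈ KW.hp, φ w = c) {t : ℂ} (ht : t ∈ KW.hp) : KW.lapE φ t = 0 := by
  have h1 : ∀ w ∈ KW.hp, φ w = 0 * φ w + c := fun w hw => by rw [h w hw]; ring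
  have h2 : ∀ w ∈ KW.hp, KW.dx φ w = 0 * KW.dx φ w := fun w hw => by
    rw [KW.dx_congr_hp (ψ := fun _ => c) h hw]
    unfold KW.dx
    rw [fderiv_const_apply]
    simp
  have h3 : ∀ w ∈ KW.hp, KW.dy φ w = 0 * KW.dy φ w := fun w hw => by
    rw [KW.dy_congr_hp (ψ := fun _ => c) h hw]
    unfold KW.dy
    rw [fderiv_const_apply]
    simp
  unfold KW.lapE
  rw [rig_dxc h2 ht, rig_dyc h3 ht]
  ring

private theorem rig_pos (hg : IsKahler (tot κ (Hr ι)) T.total gm) (hf : FibreFlat T gm) (hb : b ∈ Hr ι) (i : ι) : 0 ≤ nnB T i b :=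
  tr_B (hv_posDefR hg hb) (rel_B isOpen_Hr hg hf hb i)

private theorem rig_ww (hg : IsKahler (tot κ (Hr ι)) T.total gm) (hf : FibreFlat T gm) (hb : b ∈ Hr ι) (i : ι) :
    dz i (fun y => dzbar i (ldm (hv gm)) y) b = nnB T i b := ww_tr isOpen_Hr hg hf hb i i

private theorem rig_re (hg : IsKahler (tot κ (Hr ι)) T.total gm) (hf : FibreFlat T gm) (hb : b ∈ Hr ι) (i : ι) :
    nnB T i b = (((nnB T i b).re : ℝ) : ℂ) := by
  have h := (Complex.nonneg_iff.1 (rig_pos hg hf hb i)).2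
  apply Complex.ext
  · simp
  · rw [← h]
    simp

theorem ww_real (hg : IsKahler (tot κ (Hr ι)) T.total gm) (hf : FibreFlat T gm) (hb : b ∈ Hr ι) (i : ι) :
    0 ≤ (dz i (fun y => dzbar i (ldm (hv gm)) y) b).re ∧ (dz i (fun y => dzbar i (ldm (hv gm)) y) b).im = 0 := by
  rw [rig_ww hg hf hb i]
  have h := Complex.nonneg_iff.1 (rig_pos hg hf hb i)
  exact ⟨h.1, h.2.symm⟩

private theorem rig_smooth (T : TorusFamily κ (Hr ι) (mobr pr)) (i : ι) : ContDiffOn ℝ ∞ (fun y => (nnB T i y).re) (Hr ι) :=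
  Complex.reCLM.contDiff.comp_contDiffOn (nnB_smooth T isOpen_Hr i)

/-- The second derivative of `nnB T i` in the direction `j` as a Laplacian. -/
private theorem rig_slice (hg : IsKahler (tot κ (Hr ι)) T.total gm) (hf : FibreFlat T gm) (hb : b ∈ Hr ι) (i j : ι) {t : ℂ} (ht : t ∈ KW.hp) :
    dz j (fun y => dzbar j (nnB T i) y) (Function.update b j t) =
      ((KW.lapE (fun t => (nnB T i (Function.update b j t)).re) t / 4 : ℝ) : ℂ) := by
  rw [← slice_lap (rig_smooth T i) hb j ht]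
  refine dz_congr_on isOpen_Hr (fun y hy => ?_) (update_mem hb j ht) j
  exact dzbar_congr_on isOpen_Hr (fun x hx => rig_re hg hf hx i) hy j

theorem rig_FF (hB : CompactBase (Hr ι) (mobr pr)) (hg : IsKahler (tot κ (Hr ι)) T.total gm) (hf : FibreFlat T gm) (i : ι) :
    ∀ b ∈ Hr ι, ∀ b' ∈ Hr ι, b i = b' i → FF gm i b = FF gm i b' := by
  refine leaf hB i (FF_smooth hg i) (fun γ b hb => FF_inv hB hg hf γ hb i) fun j hj b hb t ht => ?_
  have h1 : ∀ w ∈ KW.hp, FF gm i (Function.update b j w) = (b i).im ^ 2 * (nnB T i (Function.update b j w)).re := fun w hw => by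
    unfold FF
    rw [rig_ww hg hf (update_mem hb j hw) i, Function.update_of_ne (Ne.symm hj)]
  rw [rig_lapc (φ := fun t => FF gm i (Function.update b j t)) (ψ := fun t => (nnB T i (Function.update b j t)).re) h1 ht]
  refine mul_nonneg (sq_nonneg _) ?_
  have h2 := nnB_sub isOpen_Hr hg hf (update_mem hb j ht) i j
  rw [rig_slice hg hf hb i j ht, Complex.zero_le_real] at h2
  linarith

private theorem rig_const (hB : CompactBase (Hr ι) (mobr pr)) (hg : IsKahler (tot κ (Hr ι)) T.total gm) (hf : FibreFlat T gm) (i : ι)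
    (hb : b ∈ Hr ι) (hb' : b' ∈ Hr ι) (he : b i = b' i) : (nnB T i b).re = (nnB T i b').re := by
  have h1 := rig_FF hB hg hf i b hb b' hb' he
  unfold FF at h1
  rw [rig_ww hg hf hb i, rig_ww hg hf hb' i, he] at h1
  exact mul_left_cancel₀ (pow_ne_zero 2 (ne_of_gt (hb' i))) h1

theorem rig_off (hB : CompactBase (Hr ι) (mobr pr)) (hg : IsKahler (tot κ (Hr ι)) T.total gm) (hf : FibreFlat T gm) (hb : b ∈ Hr ι) {i j : ι} (hij : i ≠ j) :
    dz i (fun y => dzbar j (ldm (hv gm)) y) b = 0 := by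
  have h1 : ∀ w ∈ KW.hp, (nnB T i (Function.update b j w)).re = (nnB T i b).re := fun w hw =>
    rig_const hB hg hf i (update_mem hb j hw) hb (Function.update_of_ne hij _ _)
  have h2 := rig_slice hg hf hb i j (t := b j) (hb j)
  rw [rig_lap0 h1 (hb j), Function.update_eq_self, zero_div, Complex.ofReal_zero] at h2
  rw [ww_tr isOpen_Hr hg hf hb i j, nnB_eq isOpen_Hr hg hf hb i j h2, Matrix.trace_zero]

end TRed
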